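import Pool.Agent.H87.QM.CutQ
import Pool.Agent.H87.QH.OneQ
import Pool.Agent.H87.QH.CptQ
import Pool.Agent.H87.QH.MasQ

/-!
# Module FinQ: quasi Hoelder propagation

Choice of constants (all before `δ, f`). `Cl' N = |Cl N|`. `α' = (2s+α)/2`. `R` from `masQ Cl' m₀`; `ε₁, K₀` from `op_Q` with exponent `α'` and mass `m₀/2`; `K₁` from `one_Q` (with `Cl'`). `C₁`: `f t x v ≤ C₁ Wp p v` (`Cl (2p)`, see `thmL_wt` in PR/ThmL). `Γ₁ = |Γ₀| + C₁ + 1`.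
`K₂ = 2 K₀ (2 + K₁)`: `K₀ (Λ + (1 + K₁(1+Γ)) (δ + |v-w|)) ≤ K₂ (1+Γ) (δ + mu α (v-w))` with `Λ = δ + Γ mu α (v-w)`, `|v-w| ≤ mu α (v-w)` (`|v-w| ≤ 1`, `α ≤ 1`). `λ = 2 K₂ + 1`, `Γ(t) = Γ₁ e^(λt)` (`≥ 1`, so `λ Γ > K₂ (1+Γ)`), `Γm = Γ₁ e^(λ |T₀|)`, `μ = K₂ (1+Γm) + 1`, `δ(t) = 2δ e^(μt)`.
`δ₂ = min 1 (ε₁ / (1 + ∫ Wp p))`, `δ₁ = δ₂ e^(-μ|T₀|)/2`: for `δ ≤ δ₁`: `δ(t) ≤ δ₂` on `[0,T₀]`, so `∫ |G - F| ≤ ε₁` (`|G-F| ≤ δ(t) Wp p`). `K = max (C₁/δ₁) (max (2 e^(μ|T₀|)) Γm)` or the sum.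
* `δ ≥ δ₁`: `f t x v - f t y w ≤ C₁ Wp p v ≤ (C₁/δ₁) δ Wp p v`.
* `δ < δ₁`: for `t < T` take `T₁ ∈ [t, T)`; claim `f t x v - f t y w < Br t v w` on `[0,T₁]`: otherwise `ftouchQ` (`hbig`: `C₁ < Γ₁ ≤ Γ(t)`, `mu = 1`; `hini`: `hdat` for `len (v-w) ≤ 1` (strict because of `2δ > δ` and `Wp > 0`), `C₁ < Γ₁` for `len > 1`). At the touching point
  `G = f t₀ x`, `F = f t₀ y` (`t₀ > 0`: `FB` by `hf.nice`; the class `FB Cl'`), `|G u - F u| ≤ δ(t₀) Wp p u` from the barrier at `(x,y,u,u)` and `(y,x,u,u)` (`mu α 0 = 0`). `one_Q`, `op_Q`: `Q(G)(v) - Q(F)(w) ≤ K₂ (1+Γ)(δ + mu) W(v)`.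
  `g(τ) = f (t₀+τ) (x+τv) v - f (t₀+τ) (y+τw) w` has derivative `Q(G)(v) - Q(F)(w)` at `0` (`char_deriv`, H82/BK/Touch) and `g(τ) < Br (t₀+τ) v w` for `τ < 0`, equality at `0`: `Q(G)(v)-Q(F)(w) ≥ (μ δ(t₀) + λ Γ(t₀) mu) W(v)` (compare the slopes from the left: `HasDerivAt` of both functions, their difference is `≥ 0` for `τ<0`
  and `0` at `0`, so the derivative of `Br - g` is `≤ 0`; see `thmL_left`). Contradiction: `μ δ + λ Γ mu > K₂(1+Γ)(δ + mu)` since `δ > 0`.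
-/

set_option autoImplicit false

open MeasureTheory Set Filter Topology Pool.Agent.H25.Kin Pool.Agent.H48.PL Pool.Agent.H48.PD
open Pool.Agent.H82.BK Pool.Agent.H82.CM Pool.Agent.H48.PR
open scoped ENNReal
open Pool.Agent.H87.QH

namespace Pool.Agent.H87.QM

variable {d : ℕ} {γ s C Ca cb : ℝ} {b : ℝ → ℝ}

/-- the left derivative of a nonnegative function vanishing at `0` -/
private lemma finQ_left {g : ℝ → ℝ} {q t₀ : ℝ} (ht : 0 < t₀) (hg : HasDerivAt g q 0)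
    (h0 : g 0 = 0) (h : ∀ τ ∈ Ioo (-t₀) 0, 0 ≤ g τ) : q ≤ 0 := by
  have h1 := hg.tendsto_slope_zero_left
  refine le_of_tendsto h1 ?_
  filter_upwards [Ioo_mem_nhdsLT (show -t₀ < 0 by linarith)] with τ hτ
  have h2 := h τ hτ
  have h3 : τ < 0 := hτ.2
  rw [zero_add, smul_eq_mul, h0, sub_zero]
  exact mul_nonpos_of_nonpos_of_nonneg (inv_lt_zero.2 h3).le h2

private lemma finQ_W {A : ℝ} (p : ℕ) {g : ℝ} {v : Vec d} (hg : 0 ≤ g)
    (h : (1 + ‖v‖) ^ (2 * p) * g ≤ A) : g ≤ ((d : ℝ) + 1) ^ p * A * Wp p v := by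
  have hn := norm_nonneg v
  have h2 : 1 + nsq v ≤ ((d : ℝ) + 1) * (1 + ‖v‖) ^ 2 := by
    have h3 := sq_le v
    have h4 : (0 : ℝ) ≤ d := Nat.cast_nonneg _
    nlinarith [mul_nonneg h4 hn]
  have hq := sq_nonneg' v
  have h5 : (1 + nsq v) ^ p ≤ ((d : ℝ) + 1) ^ p * (1 + ‖v‖) ^ (2 * p) := by
    rw [pow_mul, ← mul_pow]
    exact pow_le_pow_left₀ (by linarith) h2 p
  have h7 : g * (1 + nsq v) ^ p ≤ ((d : ℝ) + 1) ^ p * A := by
    calc g * (1 + nsq v) ^ p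
        ≤ g * (((d : ℝ) + 1) ^ p * (1 + ‖v‖) ^ (2 * p)) := mul_le_mul_of_nonneg_left h5 hg
      _ = ((d : ℝ) + 1) ^ p * ((1 + ‖v‖) ^ (2 * p) * g) := by ring
      _ ≤ ((d : ℝ) + 1) ^ p * A := mul_le_mul_of_nonneg_left h (by positivity)
  have h8 : g = g * (1 + nsq v) ^ p * Wp p v := by
    rw [mul_assoc, mul_comm ((1 + nsq v) ^ p) (Wp p v), Wp_mul, mul_one]
  rw [h8]
  exact mul_le_mul_of_nonneg_right h7 (Wp_pos p v).le

private lemma finQ_Wint {q : ℕ} (hq : d + 1 ≤ 2 * q) : Integrable (Wp q : Vec d → ℝ) := by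
  have h : ∀ v : Vec d, Wp q v ≤ 2 ^ q * wt d v := by
    intro v
    have hn := norm_nonneg v
    have h1 := norm_sq_le_sq v
    have hv := sq_nonneg' v
    have h2 : (1 + ‖v‖) ^ 2 ≤ 2 * (1 + nsq v) := by nlinarith [sq_nonneg (1 - ‖v‖)]
    have h3 : (1 + ‖v‖) ^ (d + 1) ≤ (1 + ‖v‖) ^ (2 * q) := pow_le_pow_right₀ (by linarith) hq
    have h4 : (1 + ‖v‖) ^ (2 * q) ≤ 2 ^ q * (1 + nsq v) ^ q := by
      rw [pow_mul, ← mul_pow]
      exact pow_le_pow_left₀ (by positivity) h2 q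
    unfold Wp wt
    rw [← div_eq_mul_inv, inv_eq_one_div, div_le_div_iff₀ (by positivity) (by positivity)]
    linarith
  refine (integrable_wt.const_mul (2 ^ q)).mono' (Wp_cont q).aestronglyMeasurable
    (ae_of_all _ fun v => ?_)
  rw [Real.norm_eq_abs, abs_of_pos (Wp_pos q v)]
  exact h v

private lemma finQ_mu0 {α : ℝ} (hα : 0 < α) (u : Vec d) : mu α (u - u) = 0 := by
  unfold mu
  rw [sub_self, len_zero, min_eq_right zero_le_one, Real.zero_rpow hα.ne']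

private lemma finQ_mu1 {α : ℝ} {η : Vec d} (h : 1 ≤ len η) : mu α η = 1 := by
  unfold mu
  rw [min_eq_left h, Real.one_rpow]

private lemma finQ_mu {α : ℝ} (hα : 0 < α) (h2 : α ≤ 1) {η : Vec d} (h : len η ≤ 1) :
    len η ≤ mu α η := by
  unfold mu
  rw [min_eq_right h]
  rcases (len_nonneg η).eq_or_lt with h3 | h3
  · rw [← h3, Real.zero_rpow hα.ne']
  · calc len η = len η ^ (1 : ℝ) := (Real.rpow_one _).symm
      _ ≤ len η ^ α := Real.rpow_le_rpow_of_exponent_ge h3 h h2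

private lemma finQ_mu' {α : ℝ} {η : Vec d} (h : len η ≤ 1) : mu α η = len η ^ α := by
  unfold mu
  rw [min_eq_right h]

/-- the arithmetic of the rates -/
private lemma finQ_rate {K₀ K₁ G δ m l : ℝ} (hK₀ : 0 ≤ K₀) (hK₁ : 0 ≤ K₁) (hG : 0 ≤ G)
    (hδ : 0 ≤ δ) (hm : 0 ≤ m) (hl : l ≤ m) :
    K₀ * ((δ + G * m) + (1 + K₁ * (1 + G)) * (δ + l)) ≤ K₀ * (2 + K₁) * (1 + G) * (δ + m) := by
  have h1 : δ + G * m ≤ (1 + G) * (δ + m) := by nlinarith [mul_nonneg hG hδ]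
  have h2 : (1 + K₁ * (1 + G)) * (δ + l) ≤ ((1 + K₁) * (1 + G)) * (δ + m) := by
    have h3 : (1 + K₁ * (1 + G)) * (δ + l) ≤ (1 + K₁ * (1 + G)) * (δ + m) :=
      mul_le_mul_of_nonneg_left (by linarith) (by positivity)
    have h4 : (1 + K₁ * (1 + G)) * (δ + m) ≤ ((1 + K₁) * (1 + G)) * (δ + m) :=
      mul_le_mul_of_nonneg_right (by nlinarith) (by positivity)
    linarith
  calc K₀ * ((δ + G * m) + (1 + K₁ * (1 + G)) * (δ + l))
      ≤ K₀ * ((1 + G) * (δ + m) + ((1 + K₁) * (1 + G)) * (δ + m)) :=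
        mul_le_mul_of_nonneg_left (by linarith) hK₀
    _ = _ := by ring

theorem qh (HL : HypL d γ s b C Ca cb) (h0 : 0 ≤ γ + 2 * s) (hs : 2 * s < 1) {α : ℝ} (h1 : 2 * s < α)
    (h2 : α ≤ 1) {p : ℕ} (hp : d + 12 ≤ p) (Cl : ℕ → ℝ) {m₀ : ℝ} (hm : 0 < m₀) (T₀ Γ₀ : ℝ) :
    ∃ K : ℝ, 0 ≤ K ∧ ∀ δ : ℝ, 0 < δ → δ ≤ 1 → ∀ T : ℝ, T ≤ T₀ → ∀ f : ℝ → Vec d → Vec d → ℝ,
      IsBoltzmannSol γ b T f →
      (∀ N : ℕ, ∀ t ∈ Ico 0 T, ∀ x v, (1 + ‖v‖) ^ N * f t x v ≤ Cl N) →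
      (∀ t ∈ Ico 0 T, ∀ x, m₀ ≤ ∫ v, f t x v) →
      (∀ x y v w : Vec d, len (v - w) ≤ 1 →
        f 0 x v - f 0 y w ≤ (δ + Γ₀ * len (v - w) ^ α) * Wp p v) →
      ∀ t ∈ Ico 0 T, ∀ x y v w : Vec d, f t x v - f t y w ≤ K * (δ + mu α (v - w)) * Wp p v := by
  have hs0 : 0 < s := HL.H.hs
  have hα : 0 < α := by linarith
  obtain ⟨α', hα'⟩ : ∃ α' : ℝ, α' = (2 * s + α) / 2 := ⟨_, rfl⟩
  have ha1 : 2 * s < α' := by rw [hα']; linarith
  have ha2 : α' < α := by rw [hα']; linarith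
  have ha0 : 0 < α' := by linarith
  set Cp : ℕ → ℝ := fun N => |Cl N| with hCp
  have hCp0 : ∀ N, 0 ≤ Cp N := fun N => abs_nonneg _
  obtain ⟨R, hR, hmas⟩ := masQ (d := d) Cp hm
  obtain ⟨ε₁, hε₁, K₀, hK₀, hop⟩ := op_Q HL h0 hs ha1 (ha2.le.trans h2) hp Cp R (half_pos hm)
  obtain ⟨K₁, hK₁, hone⟩ := one_Q (d := d) Cp p ha0 ha2 h2
  obtain ⟨C₁, hC₁⟩ : ∃ C₁ : ℝ, C₁ = ((d : ℝ) + 1) ^ p * Cp (2 * p) := ⟨_, rfl⟩
  have hC₁0 : 0 ≤ C₁ := by rw [hC₁]; exact mul_nonneg (by positivity) (hCp0 _)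
  obtain ⟨Γ₁, hΓ₁⟩ : ∃ Γ₁ : ℝ, Γ₁ = |Γ₀| + C₁ + 1 := ⟨_, rfl⟩
  have hΓ₁1 : 1 ≤ Γ₁ := by rw [hΓ₁]; linarith [abs_nonneg Γ₀]
  have hΓ₁C : C₁ < Γ₁ := by rw [hΓ₁]; linarith [abs_nonneg Γ₀]
  have hΓ₁0 : |Γ₀| ≤ Γ₁ := by rw [hΓ₁]; linarith
  obtain ⟨K₂, hK₂⟩ : ∃ K₂ : ℝ, K₂ = K₀ * (2 + K₁) := ⟨_, rfl⟩
  have hK₂0 : 0 ≤ K₂ := by rw [hK₂]; positivity
  obtain ⟨l, hl⟩ : ∃ l : ℝ, l = 2 * K₂ + 1 := ⟨_, rfl⟩
  have hl0 : 0 ≤ l := by rw [hl]; linarith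
  set E₀ : ℝ := Real.exp (l * |T₀|) with hE₀
  have hE₀1 : 1 ≤ E₀ := Real.one_le_exp (mul_nonneg hl0 (abs_nonneg _))
  obtain ⟨Γm, hΓm⟩ : ∃ Γm : ℝ, Γm = Γ₁ * E₀ := ⟨_, rfl⟩
  have hΓm0 : 0 ≤ Γm := by rw [hΓm]; positivity
  obtain ⟨r, hr⟩ : ∃ r : ℝ, r = K₂ * (1 + Γm) + 1 := ⟨_, rfl⟩
  have hr0 : 0 ≤ r := by rw [hr]; positivity
  set E₁ : ℝ := Real.exp (r * |T₀|) with hE₁
  have hE₁1 : 1 ≤ E₁ := Real.one_le_exp (mul_nonneg hr0 (abs_nonneg _))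
  have hWi : Integrable (Wp p : Vec d → ℝ) := finQ_Wint (by omega)
  obtain ⟨I, hI⟩ : ∃ I : ℝ, I = ∫ v : Vec d, Wp p v := ⟨_, rfl⟩
  have hI0 : 0 ≤ I := by rw [hI]; exact integral_nonneg fun v => (Wp_pos p v).le
  obtain ⟨δ₂, hδ₂⟩ : ∃ δ₂ : ℝ, δ₂ = min 1 (ε₁ / (1 + I)) := ⟨_, rfl⟩
  have hδ₂0 : 0 < δ₂ := by rw [hδ₂]; exact lt_min one_pos (by positivity)
  have hδ₂1 : δ₂ ≤ 1 := by rw [hδ₂]; exact min_le_left _ _
  have hδ₂I : δ₂ * I ≤ ε₁ := by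
    have h3 : δ₂ ≤ ε₁ / (1 + I) := by rw [hδ₂]; exact min_le_right _ _
    rw [le_div_iff₀ (by positivity)] at h3
    nlinarith
  obtain ⟨δ₁, hδ₁⟩ : ∃ δ₁ : ℝ, δ₁ = δ₂ / (2 * E₁) := ⟨_, rfl⟩
  have hδ₁0 : 0 < δ₁ := by rw [hδ₁]; positivity
  refine ⟨C₁ / δ₁ + 2 * E₁ + Γm, by positivity, ?_⟩
  intro δ hδ hδ1 T hT f hf hval hmass hdat t ht x y v w
  have hsol : IsClassicalSol T (fun t x => boltzQ γ b (f t x)) f := hf
  have hnn : ∀ t ∈ Ico 0 T, ∀ x v, 0 ≤ f t x v := hsol.nonneg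
  have hvalC : ∀ N : ℕ, ∀ t ∈ Ico 0 T, ∀ x v, (1 + ‖v‖) ^ N * f t x v ≤ Cp N :=
    fun N t ht x v => (hval N t ht x v).trans (le_abs_self _)
  have hbd : ∀ t ∈ Ico 0 T, ∀ x v, f t x v ≤ C₁ * Wp p v := fun t ht x v => by
    rw [hC₁]
    exact finQ_W p (hnn t ht x v) (hvalC (2 * p) t ht x v)
  have hW := Wp_pos p v
  have hmuv := mu_nonneg α (v - w)
  rcases le_or_gt δ₁ δ with hcase | hcase
  · -- large oscillation: trivial
    have h3 : f t x v - f t y w ≤ C₁ * Wp p v := by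
      have := hbd t ht x v
      have := hnn t ht y w
      linarith
    refine h3.trans (mul_le_mul_of_nonneg_right ?_ hW.le)
    have h4 : C₁ ≤ C₁ / δ₁ * δ := by
      rw [div_mul_eq_mul_div, le_div_iff₀ hδ₁0]
      exact mul_le_mul_of_nonneg_left hcase hC₁0
    have h5 : C₁ / δ₁ * δ ≤ (C₁ / δ₁ + 2 * E₁ + Γm) * (δ + mu α (v - w)) := by
      refine mul_le_mul ?_ (by linarith) hδ.le (by positivity)
      have : 0 ≤ 2 * E₁ + Γm := by positivity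
      linarith
    linarith
  · -- small oscillation
    obtain ⟨T₁, hT₁⟩ : ∃ T₁ : ℝ, T₁ = (t + T) / 2 := ⟨_, rfl⟩
    have hT₁T : T₁ < T := by rw [hT₁]; linarith [ht.2]
    have htT₁ : t ≤ T₁ := by rw [hT₁]; linarith [ht.2]
    have hT₁0 : 0 ≤ T₁ := ht.1.trans htT₁
    have hTabs : T₁ ≤ |T₀| := hT₁T.le.trans (hT.trans (le_abs_self _))
    have hsub : ∀ {τ : ℝ}, τ ∈ Icc 0 T₁ → τ ∈ Ico 0 T := fun h => ⟨h.1, h.2.trans_lt hT₁T⟩
    set D : ℝ → ℝ := fun τ => 2 * δ * Real.exp (r * τ) with hD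
    set Gm : ℝ → ℝ := fun τ => Γ₁ * Real.exp (l * τ) with hGm
    have hDpos : ∀ τ, 0 < D τ := fun τ => by simp only [hD]; positivity
    have hΓ₁p : 0 < Γ₁ := by linarith
    have hGpos : ∀ τ, 0 < Gm τ := fun τ => by simp only [hGm]; positivity
    have hDc : Continuous D := by simp only [hD]; fun_prop
    have hGc : Continuous Gm := by simp only [hGm]; fun_prop
    have hG1 : ∀ τ, 0 ≤ τ → Γ₁ ≤ Gm τ := fun τ hτ => by
      simp only [hGm]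
      have := Real.one_le_exp (mul_nonneg hl0 hτ)
      nlinarith
    have hGle : ∀ τ ∈ Icc 0 T₁, Gm τ ≤ Γm := fun τ hτ => by
      simp only [hGm]
      rw [hΓm, hE₀]
      refine mul_le_mul_of_nonneg_left (Real.exp_le_exp.2 ?_) hΓ₁p.le
      exact mul_le_mul_of_nonneg_left (hτ.2.trans hTabs) hl0
    have hD0 : ∀ τ, 0 ≤ τ → 2 * δ ≤ D τ := fun τ hτ => by
      simp only [hD]
      have := Real.one_le_exp (mul_nonneg hr0 hτ)
      nlinarith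
    have hDle : ∀ τ ∈ Icc 0 T₁, D τ ≤ 2 * δ * E₁ := fun τ hτ => by
      simp only [hD]
      rw [hE₁]
      refine mul_le_mul_of_nonneg_left (Real.exp_le_exp.2 ?_) (by positivity)
      exact mul_le_mul_of_nonneg_left (hτ.2.trans hTabs) hr0
    have hδE : 2 * δ * E₁ ≤ δ₂ := by
      have h3 : δ ≤ δ₂ / (2 * E₁) := by rw [← hδ₁]; exact hcase.le
      rw [le_div_iff₀ (by positivity)] at h3
      linarith
    have claim : ∀ τ ∈ Icc 0 T₁, ∀ x y v w : Vec d,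
        f τ x v - f τ y w < Br p α D Gm τ v w := by
      by_contra hcon
      push Not at hcon
      have hbig : ∀ τ ∈ Icc 0 T₁, ∀ x y v w : Vec d, 1 ≤ len (v - w) →
          f τ x v - f τ y w < Br p α D Gm τ v w := by
        intro τ hτ x y v w hvw
        have h3 := hbd τ (hsub hτ) x v
        have h4 := hnn τ (hsub hτ) y w
        unfold Br
        rw [finQ_mu1 hvw, mul_one]
        have h5 : C₁ < D τ + Gm τ := by linarith [hDpos τ, hG1 τ hτ.1]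
        have h6 := mul_lt_mul_of_pos_right h5 (Wp_pos p v)
        linarith
      have hini : ∀ x y v w : Vec d, f 0 x v - f 0 y w < Br p α D Gm 0 v w := by
        intro x y v w
        rcases le_or_gt (len (v - w)) 1 with hvw | hvw
        · refine (hdat x y v w hvw).trans_lt ?_
          unfold Br
          refine mul_lt_mul_of_pos_right ?_ (Wp_pos p v)
          rw [finQ_mu' hvw]
          have h3 := hD0 0 le_rfl
          have h4 := hG1 0 le_rfl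
          have h5 : 0 ≤ len (v - w) ^ α := Real.rpow_nonneg (len_nonneg _) _
          have h6 : Γ₀ * len (v - w) ^ α ≤ Gm 0 * len (v - w) ^ α :=
            mul_le_mul_of_nonneg_right (by linarith [le_abs_self Γ₀]) h5
          linarith
        · exact hbig 0 ⟨le_rfl, hT₁0⟩ x y v w hvw.le
      obtain ⟨t₀, ht₀, x₀, y₀, v₀, w₀, hvw, heq, hlt, hle⟩ :=
        ftouchQ hsol hT₁0 hT₁T p hα hDc hGc hDpos hGpos hbig hini hcon
      have ht₀c : t₀ ∈ Icc 0 T₁ := ⟨ht₀.1.le, ht₀.2⟩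
      have ht₀T : t₀ ∈ Ioo 0 T := ⟨ht₀.1, ht₀.2.trans_lt hT₁T⟩
      have ht₀I : t₀ ∈ Ico 0 T := hsub ht₀c
      have hFB : ∀ x, FB Cp (f t₀ x) := fun x =>
        ⟨hsol.nice ht₀T x, hnn t₀ ht₀I x, fun N v => hvalC N t₀ ht₀I x v⟩
      have hDt : D t₀ ≤ δ₂ := (hDle t₀ ht₀c).trans hδE
      have hdif : ∀ x y u : Vec d, f t₀ x u - f t₀ y u ≤ D t₀ * Wp p u := by
        intro x y u
        have h3 := hle x y u u
        unfold Br at h3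
        rwa [finQ_mu0 hα, mul_zero, add_zero] at h3
      have hdif' : ∀ u, |f t₀ x₀ u - f t₀ y₀ u| ≤ D t₀ * Wp p u := fun u => by
        rw [abs_le]
        have h3 := hdif x₀ y₀ u
        have h4 := hdif y₀ x₀ u
        constructor <;> linarith
      have htq := hone (Gm t₀) (D t₀) (f t₀ y₀) (f t₀ x₀) v₀ w₀ (hGpos t₀).le (hDpos t₀).le
        (hDt.trans hδ₂1) (hFB y₀) (hFB x₀) hvw.le (fun v' w' => hle x₀ y₀ v' w') hdif' heq
      have hmG := hmas (f t₀ x₀) (hFB x₀) (hmass t₀ ht₀I x₀)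
      have hL1 : ∫ z, |f t₀ x₀ z - f t₀ y₀ z| ≤ ε₁ := by
        calc ∫ z, |f t₀ x₀ z - f t₀ y₀ z| ≤ ∫ z, D t₀ * Wp p z :=
              integral_mono_of_nonneg (ae_of_all _ fun z => abs_nonneg _) (hWi.const_mul _)
                (ae_of_all _ hdif')
          _ = D t₀ * I := by rw [integral_const_mul, hI]
          _ ≤ δ₂ * I := mul_le_mul_of_nonneg_right hDt hI0
          _ ≤ ε₁ := hδ₂I
      have hq := hop _ _ _ _ _ _ _ htq hmG hL1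
      have hWv := Wp_pos p v₀
      have hmu0 := mu_nonneg α (v₀ - w₀)
      have hq2 : boltzQ γ b (f t₀ x₀) v₀ - boltzQ γ b (f t₀ y₀) w₀ ≤
          K₂ * (1 + Gm t₀) * (D t₀ + mu α (v₀ - w₀)) * Wp p v₀ := by
        refine hq.trans (mul_le_mul_of_nonneg_right ?_ hWv.le)
        rw [hK₂]
        exact finQ_rate hK₀ hK₁ (hGpos t₀).le (hDpos t₀).le hmu0 (finQ_mu hα h2 hvw.le)
      -- the derivative along the two characteristics
      have d1 := (char_deriv hsol ht₀T x₀ v₀).sub (char_deriv hsol ht₀T y₀ w₀)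
      have e1 : HasDerivAt (fun τ : ℝ => D (t₀ + τ)) (r * D t₀) 0 := by
        have h3 : HasDerivAt (fun τ : ℝ => r * (t₀ + τ)) r 0 := by
          have h4 := ((hasDerivAt_id (0 : ℝ)).const_add t₀).const_mul r
          rwa [mul_one] at h4
        have h5 := (h3.exp).const_mul (2 * δ)
        simp only [add_zero] at h5
        have e : r * D t₀ = 2 * δ * (Real.exp (r * t₀) * r) := by simp only [hD]; ring
        rw [e]
        exact h5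
      have e2 : HasDerivAt (fun τ : ℝ => Gm (t₀ + τ)) (l * Gm t₀) 0 := by
        have h3 : HasDerivAt (fun τ : ℝ => l * (t₀ + τ)) l 0 := by
          have h4 := ((hasDerivAt_id (0 : ℝ)).const_add t₀).const_mul l
          rwa [mul_one] at h4
        have h5 := (h3.exp).const_mul Γ₁
        simp only [add_zero] at h5
        have e : l * Gm t₀ = Γ₁ * (Real.exp (l * t₀) * l) := by simp only [hGm]; ring
        rw [e]
        exact h5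
      have d2 : HasDerivAt (fun τ : ℝ => Br p α D Gm (t₀ + τ) v₀ w₀)
          ((r * D t₀ + l * Gm t₀ * mu α (v₀ - w₀)) * Wp p v₀) 0 := by
        have h3 := (e1.add (e2.mul_const (mu α (v₀ - w₀)))).mul_const (Wp p v₀)
        exact h3
      have d3 := d2.sub d1
      have hneg := finQ_left ht₀.1 d3 (by
        simp only [Pi.sub_apply, add_zero, zero_smul]
        linarith) (by
        intro τ hτ
        have h3 := hlt (t₀ + τ) ⟨by linarith [hτ.1], by linarith [hτ.2]⟩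
          (x₀ + τ • v₀) (y₀ + τ • w₀) v₀ w₀
        simp only [Pi.sub_apply]
        linarith)
      have hGt := hGle t₀ ht₀c
      have hGt1 : 1 ≤ Gm t₀ := hΓ₁1.trans (hG1 t₀ ht₀.1.le)
      -- the contradiction
      have hstrict : K₂ * (1 + Gm t₀) * (D t₀ + mu α (v₀ - w₀)) <
          r * D t₀ + l * Gm t₀ * mu α (v₀ - w₀) := by
        have h3 : K₂ * (1 + Gm t₀) * D t₀ < r * D t₀ := by
          refine mul_lt_mul_of_pos_right ?_ (hDpos t₀)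
          have : K₂ * (1 + Gm t₀) ≤ K₂ * (1 + Γm) := mul_le_mul_of_nonneg_left (by linarith) hK₂0
          rw [hr]
          linarith
        have h4 : K₂ * (1 + Gm t₀) * mu α (v₀ - w₀) ≤ l * Gm t₀ * mu α (v₀ - w₀) := by
          refine mul_le_mul_of_nonneg_right ?_ hmu0
          rw [hl]
          nlinarith
        linarith
      have h5 := mul_lt_mul_of_pos_right hstrict hWv
      linarith
    have h3 := claim t ⟨ht.1, htT₁⟩ x y v w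
    refine h3.le.trans ?_
    unfold Br
    refine mul_le_mul_of_nonneg_right ?_ hW.le
    have h4 : D t ≤ 2 * E₁ * δ := by
      have := hDle t ⟨ht.1, htT₁⟩
      linarith
    have h5 : Gm t * mu α (v - w) ≤ Γm * mu α (v - w) :=
      mul_le_mul_of_nonneg_right (hGle t ⟨ht.1, htT₁⟩) hmuv
    have h6 : 0 ≤ C₁ / δ₁ * (δ + mu α (v - w)) := by positivity
    have h7 : 0 ≤ 2 * E₁ * mu α (v - w) := by positivity
    have h8 : 0 ≤ Γm * δ := by positivity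
    nlinarith

theorem qh_osc (HL : HypL d γ s b C Ca cb) (h0 : 0 ≤ γ + 2 * s) (hs : 2 * s < 1) {α : ℝ} (h1 : 2 * s < α)
    (h2 : α ≤ 1) {p : ℕ} (hp : d + 12 ≤ p) (Cl : ℕ → ℝ) {m₀ : ℝ} (hm : 0 < m₀) (T₀ Γ₀ : ℝ) :
    ∃ K : ℝ, 0 ≤ K ∧ ∀ δ : ℝ, 0 < δ → δ ≤ 1 → ∀ T : ℝ, T ≤ T₀ → ∀ f : ℝ → Vec d → Vec d → ℝ,
      IsBoltzmannSol γ b T f →
      (∀ N : ℕ, ∀ t ∈ Ico 0 T, ∀ x v, (1 + ‖v‖) ^ N * f t x v ≤ Cl N) →
      (∀ t ∈ Ico 0 T, ∀ x, m₀ ≤ ∫ v, f t x v) →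
      (∀ x y v w : Vec d, len (v - w) ≤ 1 →
        f 0 x v - f 0 y w ≤ (δ + Γ₀ * len (v - w) ^ α) * Wp p v) →
      ∀ t ∈ Ico 0 T, ∀ x y v : Vec d, |f t x v - f t y v| ≤ K * δ * Wp p v := by
  have hα : 0 < α := by linarith [HL.H.hs]
  obtain ⟨K, hK, h⟩ := qh HL h0 hs h1 h2 hp Cl hm T₀ Γ₀
  refine ⟨K, hK, fun δ hδ hδ1 T hT f hf hval hmass hdat t ht x y v => ?_⟩
  have h3 := h δ hδ hδ1 T hT f hf hval hmass hdat t ht x y v v
  have h4 := h δ hδ hδ1 T hT f hf hval hmass hdat t ht y x v v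
  rw [finQ_mu0 hα, add_zero] at h3 h4
  rw [abs_le]
  constructor <;> linarith

end Pool.Agent.H87.QM
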