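import Pool.Agent.H87.QH.IntR1
import Pool.Agent.H71.VM.Rp

/-!
# Module IntR1: the remainder with the coupled displacement

NEW VERSION (V-MINUS, `0 ≤ γ + 2 * s` instead of `0 ≤ γ`): draft = copy of QH/IntR1.lean with the new hypothesis in the store: h87_qm_IntR1.lean.txt (`ang_cpl` is the old theorem `Pool.Agent.H87.QH.ang_cpl`, do not restate it publicly). Case `0 ≤ γ`: the original theorem `Pool.Agent.H87.QH.intR1 H h`. Case `γ < 0`, so `-1 < γ` (`2s < α ≤ 1`): with `m₁ = m + (w-v)`, pointwise the integrand is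
`≤ ofReal (len m₁^γ Wp p (v-m) Wp (p+2) v A (1+nsq m₁))`; for `len m₁ ≥ 1`: `len m₁^γ ≤ 1`, as before; for `len m₁ < 1`: `≤ 2A Wp p v len m₁^γ ≤ 2A Wp p v 2^(d+5) kg γ m₁` (`kg`, `kg_integrable` in H25/Kin/BInt, `-2 < γ ≤ 0`; see the private lemma `R2_kg` of QH/IntR2). The sum of both majorants is integrable with integral `≤ K Wp p v` (translation invariance for `kg γ (m + (w-v))`).

OLD HEADER.
For `m ≠ 0`, `m₁ = m + (w-v) ≠ 0` (a.e.): `∫ Kn(co m σ) mu α (cpl m m₁ (hh σ m)) = ∫ Kn(co m₁ σ) mu α (hh σ m₁) ≤ A (1 + nsq m₁)` (`cpl_int` with `Φ c h = ofReal (Kn c * mu α h)`, `ang_min` (PR/AngK) at `m₁`; `mu α h = min 1 (len h) ^ α` by definition): lemma `ang_cpl`, public.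
`len m₁ ≤ len m + 1`, `len m₁^γ (1+nsq m₁) ≤ (1+nsq m₁)² ≤ 9 (1+nsq m)² ≤ 36 (1+nsq v)²(1+nsq z)²`, `z = v-m`, `Wp (p+2) v (1+nsq v)² = Wp p v`, `Wp p z (1+nsq z)² = Wp (p-2) z` integrable (see PR/IntR, `IntR_inner`, `intR`).
`measurable_inner`: the joint measurability used in `CutQ` is there.
-/

set_option autoImplicit false

open MeasureTheory Set Filter Topology Pool.Agent.H25.Kin Pool.Agent.H48.PL Pool.Agent.H48.PD
open Pool.Agent.H82.BK Pool.Agent.H82.CM Pool.Agent.H48.PR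
open scoped ENNReal
open Pool.Agent.H87.QH

namespace Pool.Agent.H87.QM

variable {d : ℕ} {γ s C Ca : ℝ} {b : ℝ → ℝ}

private lemma IntR1_nsq (v m : Vec d) : 1 + nsq m ≤ 2 * ((1 + nsq v) * (1 + nsq (v - m))) := by
  have h1 := sq_nonneg' v
  have h2 := sq_nonneg' (v - m)
  have h3 : nsq m ≤ 2 * nsq v + 2 * nsq (v - m) := by
    unfold nsq
    rw [Finset.mul_sum, Finset.mul_sum, ← Finset.sum_add_distrib]
    refine Finset.sum_le_sum fun i _ => ?_
    rw [Pi.sub_apply]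
    nlinarith [sq_nonneg (2 * v i - m i)]
  nlinarith [mul_nonneg h1 h2]

private lemma IntR1_nsq1 {v w : Vec d} (h : len (v - w) ≤ 1) (m : Vec d) :
    1 + nsq (m + (w - v)) ≤ 3 * (1 + nsq m) := by
  have h1 := sq_nonneg' m
  have h2 : nsq (w - v) ≤ 1 := by
    have h3 : nsq (w - v) = nsq (v - w) := by
      unfold nsq
      refine Finset.sum_congr rfl fun i _ => ?_
      simp only [Pi.sub_apply]
      ring
    rw [h3, ← len_sq]
    exact pow_le_one₀ (len_nonneg _) h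
  have h3 : nsq (m + (w - v)) ≤ 2 * nsq m + 2 * nsq (w - v) := by
    unfold nsq
    rw [Finset.mul_sum, Finset.mul_sum, ← Finset.sum_add_distrib]
    refine Finset.sum_le_sum fun i _ => ?_
    simp only [Pi.sub_apply, Pi.add_apply]
    nlinarith [sq_nonneg (m i - (w i - v i))]
  linarith

private lemma IntR1_W (p : ℕ) (v : Vec d) : Wp (p + 2) v * (1 + nsq v) ^ 2 = Wp p v := by
  have h := sq_nonneg' v
  have h1 : (1 + nsq v) ≠ 0 := by positivity
  unfold Wp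
  rw [pow_add, mul_inv, mul_assoc, inv_mul_cancel₀ (pow_ne_zero _ h1), mul_one]

private lemma IntR1_wt {q : ℕ} (hq : d + 1 ≤ 2 * q) (z : Vec d) : Wp q z ≤ 2 ^ q * wt d z := by
  have h := sq_nonneg' z
  have h1 := one_le_w z
  have h2 : (1 + ‖z‖) ^ (d + 1) ≤ 2 ^ q * (1 + nsq z) ^ q := by
    calc (1 + ‖z‖) ^ (d + 1) ≤ (1 + ‖z‖) ^ (2 * q) := pow_le_pow_right₀ h1 hq
      _ = ((1 + ‖z‖) ^ 2) ^ q := pow_mul _ _ _
      _ ≤ (2 * (1 + nsq z)) ^ q := pow_le_pow_left₀ (by positivity) (norm_le_nsq z) q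
      _ = 2 ^ q * (1 + nsq z) ^ q := mul_pow _ _ _
  unfold Wp wt
  have h3 : 0 < (1 + nsq z) ^ q := by positivity
  have h4 : 0 < (1 + ‖z‖) ^ (d + 1) := by positivity
  rw [← div_eq_mul_inv, inv_eq_one_div, div_le_div_iff₀ h3 h4, one_mul]
  exact h2

/-- the inner integral -/
private lemma IntR1_inner {A P ε α : ℝ} (hP : 0 ≤ P) (hα : 0 < α) (m m₁ : Vec d)
    (h1 : m ≠ 0 → m₁ ≠ 0 → ∫⁻ σ in {σ : Vec d | 0 < dot m σ}, ENNReal.ofReal
      (Kn d γ (bt b ε) (co m σ) * mu α (cpl m m₁ (hh σ m))) ∂(surf d) ≤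
      ENNReal.ofReal (A * (1 + nsq m₁))) :
    ∫⁻ σ in {σ : Vec d | 0 < dot m σ}, ENNReal.ofReal (Kn d γ (bt b ε) (co m σ) *
        (P * mu α (cpl m m₁ (hh σ m)))) ∂(surf d) ≤ ENNReal.ofReal (P * (A * (1 + nsq m₁))) := by
  rcases eq_or_ne m 0 with rfl | hm
  · have h3 : {σ : Vec d | 0 < dot (0 : Vec d) σ} = ∅ := by
      ext σ
      simp [dot]
    rw [h3, Measure.restrict_empty, lintegral_zero_measure]
    exact bot_le
  rcases eq_or_ne m₁ 0 with rfl | hm₁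
  · have h3 : ∀ σ : Vec d, ENNReal.ofReal (Kn d γ (bt b ε) (co m σ) *
        (P * mu α (cpl m 0 (hh σ m)))) = 0 := by
      intro σ
      have e1 : len (0 : Vec d) = 0 := by
        unfold len nsq
        simp
      have e2 : cpl m 0 (hh σ m) = 0 := by
        unfold cpl
        rw [e1, zero_div, zero_smul]
      have e3 : mu α (0 : Vec d) = 0 := by
        unfold mu
        rw [e1, min_eq_right zero_le_one, Real.zero_rpow hα.ne']
      rw [e2, e3, mul_zero, mul_zero, ENNReal.ofReal_zero]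
    rw [lintegral_congr h3, lintegral_zero]
    exact bot_le
  have h3 : ∀ σ : Vec d, ENNReal.ofReal (Kn d γ (bt b ε) (co m σ) *
        (P * mu α (cpl m m₁ (hh σ m)))) =
      ENNReal.ofReal P * ENNReal.ofReal
        (Kn d γ (bt b ε) (co m σ) * mu α (cpl m m₁ (hh σ m))) := by
    intro σ
    rw [← ENNReal.ofReal_mul hP]
    congr 1
    ring
  rw [lintegral_congr h3, lintegral_const_mul' _ _ ENNReal.ofReal_ne_top, ENNReal.ofReal_mul hP]
  exact mul_le_mul_right (h1 hm hm₁) _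

/-- the algebra of the weights -/
private lemma IntR1_alg {A l n₁ n V Z Wz Wv2 Wv Wq T : ℝ} (hA : 0 ≤ A) (hn₁ : 0 ≤ n₁) (hn : 0 ≤ n)
    (hWz : 0 ≤ Wz) (hWv2 : 0 ≤ Wv2) (hWv : 0 ≤ Wv) (hl : l ≤ 1 + n₁)
    (h1 : 1 + n₁ ≤ 3 * (1 + n)) (h2 : 1 + n ≤ 2 * ((1 + V) * (1 + Z)))
    (h3 : Wv2 * (1 + V) ^ 2 = Wv) (h4 : Wz * (1 + Z) ^ 2 = Wq) (h5 : Wq ≤ T) :
    l * Wz * (Wv2 * (A * (1 + n₁))) ≤ 36 * A * Wv * T := by
  have e1 : (1 + n₁) * (1 + n₁) ≤ (6 * ((1 + V) * (1 + Z))) * (6 * ((1 + V) * (1 + Z))) := by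
    have : 1 + n₁ ≤ 6 * ((1 + V) * (1 + Z)) := by linarith
    exact mul_le_mul this this (by linarith) (by linarith)
  have e2 : l * (1 + n₁) ≤ 36 * ((1 + V) ^ 2 * (1 + Z) ^ 2) := by
    calc l * (1 + n₁) ≤ (1 + n₁) * (1 + n₁) := mul_le_mul_of_nonneg_right hl (by linarith)
      _ ≤ _ := e1
      _ = _ := by ring
  have e3 : 0 ≤ A * (Wz * Wv2) := by positivity
  calc l * Wz * (Wv2 * (A * (1 + n₁))) = A * (Wz * Wv2) * (l * (1 + n₁)) := by ring
    _ ≤ A * (Wz * Wv2) * (36 * ((1 + V) ^ 2 * (1 + Z) ^ 2)) := mul_le_mul_of_nonneg_left e2 e3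
    _ = 36 * A * (Wv2 * (1 + V) ^ 2) * (Wz * (1 + Z) ^ 2) := by ring
    _ = 36 * A * Wv * Wq := by rw [h3, h4]
    _ ≤ 36 * A * Wv * T := mul_le_mul_of_nonneg_left h5 (by positivity)

/-- the singular part of the kernel near zero -/
private lemma IntR1_sing (γ : ℝ) {m : Vec d} (h : len m ≤ 1) :
    len m ^ γ ≤ 2 ^ (d + 5) * kg γ m := by
  have hl : 0 ≤ len m ^ γ := Real.rpow_nonneg (len_nonneg m) _
  unfold kg
  have h3 : (1 + ‖m‖) ^ (d + 5) ≤ 2 ^ (d + 5) :=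
    pow_le_pow_left₀ (by positivity) (by linarith [norm_le_len m]) _
  have h4 : 0 < (1 + ‖m‖) ^ (d + 5) := by positivity
  have h5 : 1 ≤ 2 ^ (d + 5) * ((1 + ‖m‖) ^ (d + 5))⁻¹ := by
    rw [← div_eq_mul_inv, one_le_div h4]
    exact h3
  have h6 : 1 ≤ 1 + nsq m := by linarith [sq_nonneg' m]
  calc len m ^ γ = len m ^ γ * 1 * 1 := by ring
    _ ≤ len m ^ γ * (1 + nsq m) * (2 ^ (d + 5) * ((1 + ‖m‖) ^ (d + 5))⁻¹) := by
        gcongr
    _ = _ := by ring

theorem intR1 (H : Hyp d γ s b C Ca) (h0 : 0 ≤ γ + 2 * s) {α : ℝ} (h1 : 2 * s < α) (h2 : α ≤ 1) {p : ℕ}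
    (hp : d + 12 ≤ p) : ∃ K : ℝ, 0 ≤ K ∧ ∀ v w : Vec d, len (v - w) ≤ 1 → ∀ ε : ℝ, 0 < ε →
    ∫⁻ m, ENNReal.ofReal (len (m + (w - v)) ^ γ * Wp p (v - m)) *
      ∫⁻ σ in {σ : Vec d | 0 < dot m σ}, ENNReal.ofReal (Kn d γ (bt b ε) (co m σ) *
        (Wp (p + 2) v * mu α (cpl m (m + (w - v)) (hh σ m)))) ∂(surf d) ≤
      ENNReal.ofReal (K * Wp p v) := by
  rcases le_or_gt 0 γ with hγ | hγ
  · exact Pool.Agent.H87.QH.intR1 H hγ h1 h2 hp
  have hγ1 : -2 < γ := by linarith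
  obtain ⟨A, hA, g1⟩ := ang_cpl H h1 h2
  obtain ⟨q, rfl⟩ : ∃ q, p = q + 2 := ⟨p - 2, by omega⟩
  have hα : 0 < α := by
    have := H.hs
    linarith
  have hI : 0 ≤ ∫ z : Vec d, wt d z := integral_nonneg wt_nonneg
  have hJ : 0 ≤ ∫ z : Vec d, kg γ z := integral_nonneg (kg_nonneg γ)
  have hki : Integrable (kg (d := d) γ) := kg_integrable H.hd hγ1 H.g2
  refine ⟨36 * A * 2 ^ q * (∫ z : Vec d, wt d z) + 2 * A * 2 ^ (d + 5) * ∫ z : Vec d, kg γ z,
    by positivity, fun v w hvw ε hε => ?_⟩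
  have hWv := (Wp_pos (q + 2) v).le
  have key : ∀ m : Vec d, ENNReal.ofReal (len (m + (w - v)) ^ γ * Wp (q + 2) (v - m)) *
      ∫⁻ σ in {σ : Vec d | 0 < dot m σ}, ENNReal.ofReal (Kn d γ (bt b ε) (co m σ) *
        (Wp (q + 2 + 2) v * mu α (cpl m (m + (w - v)) (hh σ m)))) ∂(surf d) ≤
      ENNReal.ofReal (36 * A * 2 ^ q * Wp (q + 2) v * wt d (v - m) +
        2 * A * 2 ^ (d + 5) * Wp (q + 2) v * kg γ (m + (w - v))) := by
    intro m
    have hW := (Wp_pos (q + 2 + 2) v).le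
    have h3 := IntR1_inner (P := Wp (q + 2 + 2) v) hW hα m (m + (w - v))
      (fun hm hm₁ => g1 ε hε m (m + (w - v)) hm hm₁)
    refine (mul_le_mul_right h3 _).trans ?_
    have hl : 0 ≤ len (m + (w - v)) ^ γ := Real.rpow_nonneg (len_nonneg _) _
    have hWz := (Wp_pos (q + 2) (v - m)).le
    rw [← ENNReal.ofReal_mul (mul_nonneg hl hWz)]
    refine ENNReal.ofReal_le_ofReal ?_
    have hkg := kg_nonneg γ (m + (w - v))
    have hwt := wt_nonneg (d := d) (v - m)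
    have hn₁ := sq_nonneg' (m + (w - v))
    rcases le_total 1 (len (m + (w - v))) with h | h
    · have hl1 : len (m + (w - v)) ^ γ ≤ 1 + nsq (m + (w - v)) := by
        have := Real.rpow_le_one_of_one_le_of_nonpos h hγ.le
        linarith
      have h4 := IntR1_alg hA (sq_nonneg' (m + (w - v))) (sq_nonneg' m) hWz hW
        (Wp_pos (q + 2) v).le hl1 (IntR1_nsq1 hvw m) (IntR1_nsq v m)
        (IntR1_W (q + 2) v) (IntR1_W q (v - m)) (IntR1_wt (d := d) (q := q) (by omega) (v - m))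
      have h5 : 0 ≤ 2 * A * 2 ^ (d + 5) * Wp (q + 2) v * kg γ (m + (w - v)) := by positivity
      refine h4.trans ?_
      have h6 : 36 * A * Wp (q + 2) v * (2 ^ q * wt d (v - m)) =
        36 * A * 2 ^ q * Wp (q + 2) v * wt d (v - m) := by ring
      linarith
    · have h4 := IntR1_sing (d := d) γ h
      have h5 : 0 ≤ 36 * A * 2 ^ q * Wp (q + 2) v * wt d (v - m) := by positivity
      have h6 : nsq (m + (w - v)) ≤ 1 := by
        rw [← len_sq]
        exact pow_le_one₀ (len_nonneg _) h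
      have h7 := Wp_le_one (q + 2) (v - m)
      have h8 : Wp (q + 2 + 2) v ≤ Wp (q + 2) v := by
        have e := IntR1_W (q + 2) v
        have e1 : 1 ≤ (1 + nsq v) ^ 2 := one_le_pow₀ (by linarith [sq_nonneg' v])
        rw [← e]
        exact le_mul_of_one_le_right hW e1
      have h9 : len (m + (w - v)) ^ γ * Wp (q + 2) (v - m) *
          (Wp (q + 2 + 2) v * (A * (1 + nsq (m + (w - v))))) ≤
          (2 ^ (d + 5) * kg γ (m + (w - v))) * 1 * (Wp (q + 2) v * (A * 2)) := by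
        have e2 : 1 + nsq (m + (w - v)) ≤ 2 := by linarith
        have e3 : 0 ≤ 2 ^ (d + 5) * kg γ (m + (w - v)) := by positivity
        refine mul_le_mul (mul_le_mul h4 h7 hWz e3) (mul_le_mul h8
          (mul_le_mul_of_nonneg_left e2 hA) (by positivity) hWv) (by positivity)
          (by positivity)
      refine h9.trans ?_
      linarith
  refine (lintegral_mono key).trans ?_
  have i1 : Integrable fun m : Vec d => 36 * A * 2 ^ q * Wp (q + 2) v * wt d (v - m) :=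
    (integrable_wt.comp_sub_left v).const_mul _
  have i2 : Integrable fun m : Vec d =>
      2 * A * 2 ^ (d + 5) * Wp (q + 2) v * kg γ (m + (w - v)) :=
    (hki.comp_add_right (w - v)).const_mul _
  have i3 : Integrable fun m : Vec d => 36 * A * 2 ^ q * Wp (q + 2) v * wt d (v - m) +
      2 * A * 2 ^ (d + 5) * Wp (q + 2) v * kg γ (m + (w - v)) := i1.add i2
  rw [← ofReal_integral_eq_lintegral_ofReal i3 (Eventually.of_forall fun m => by
    have hkg := kg_nonneg γ (m + (w - v))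
    have hwt := wt_nonneg (d := d) (v - m)
    simp only [Pi.zero_apply]
    positivity)]
  refine ENNReal.ofReal_le_ofReal (le_of_eq ?_)
  have e0 : ∫ m : Vec d, (36 * A * 2 ^ q * Wp (q + 2) v * wt d (v - m) +
      2 * A * 2 ^ (d + 5) * Wp (q + 2) v * kg γ (m + (w - v))) =
      (∫ m : Vec d, 36 * A * 2 ^ q * Wp (q + 2) v * wt d (v - m)) +
      ∫ m : Vec d, 2 * A * 2 ^ (d + 5) * Wp (q + 2) v * kg γ (m + (w - v)) :=
    integral_add i1 i2
  rw [e0, integral_const_mul, integral_const_mul,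
    integral_sub_left_eq_self (fun z : Vec d => wt d z) volume v,
    integral_add_right_eq_self (fun z : Vec d => kg γ z) (w - v)]
  ring

end Pool.Agent.H87.QM
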