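import Pool.Agent.H87.QH.IntR2
import Pool.Agent.H71.VM.Rp
import Pool.Agent.H71.VM.PRAngK

/-!
# Module IntR2: the remainder from the difference of the kernels

NEW VERSION (V-MINUS, `0 ≤ γ + 2 * s` instead of `0 ≤ γ`): draft = copy of QH/IntR2.lean with the new hypothesis in the store: h87_qm_IntR2.lean.txt. Case `0 ≤ γ`: the original theorem `Pool.Agent.H87.QH.intR2 H h`. Case `γ < 0`, so `-1 < γ` (`2s < α ≤ 1`), `m₁ = m + (w-v)`, both `≠ 0` (almost every `m`: `lintegral_mono_ae`; one point has measure zero):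
* `|len m^γ - len m₁^γ| ≤ len (v-w) (len m^(γ-1) + len m₁^(γ-1))`: for `0 < x ≤ y`: `x^γ - y^γ = x^γ (1 - (y/x)^γ) ≤ x^γ (y/x - 1) = x^(γ-1) (y-x)` since `(y/x)^γ ≥ (y/x)⁻¹ ≥ 1 - (y/x - 1)` (`-1 ≤ γ`, `y/x ≥ 1`), `|len m - len m₁| ≤ len (v-w)`.
* inner integral `≤ Wp (p+2) v (A₁ (1+nsq m) + A (1+nsq m₁) + A₂)` as before (`Pool.Agent.H71.VM.ang_one`), `≤ K Wp (p+2) v (1+nsq m)`.
* `len m^(γ-1) ≤ 1 + 2^(d+5) kg (γ-1) m`, the same for `m₁` (`kg`, `kg_integrable` in H25/Kin/BInt, `-2 < γ-1 ≤ 0`; `R2_kg` in the draft is the case `-1`); where `len m < 1` or `len m₁ < 1` use `Wp p (v-m) (1+nsq m) ≤ 5` and `Wp (p+2) v ≤ Wp p v` for the singular part; the regular part as before. Integral of `kg (γ-1) (m + (w-v))`: translation invariance.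

OLD HEADER.
`m₁ = m + (w-v)`, `len (v-w) ≤ 1`.
* `dif_pow` (public): `| |m|^γ - |m₁|^γ | ≤ 2 len (v-w) ((len m)⁻¹ + 1 + len m + len m₁)` for `m ≠ 0`, `0 ≤ γ ≤ 2`: for `0 ≤ x ≤ M`, `0 < M`: `M^γ - x^γ ≤ 2 M^(γ-1) (M - x)` (`γ ≤ 1`: `(x/M)^γ ≥ x/M`; `1 ≤ γ ≤ 2`: `(x/M)^γ ≥ (x/M)² ≥ 1 - 2(1 - x/M)`), `|len m - len m₁| ≤ len (w-v)`
  (`len_le_add_sub`, `len_sub_le`), `M = max (len m) (len m₁) ≥ len m`, `M^(γ-1) ≤ M⁻¹ + M + 1 ≤ (len m)⁻¹ + 1 + len m + len m₁`.
* inner integral `≤ Wp (p+2) v [A₁ (1+nsq m) + A (1+nsq m₁) + A₂]` (`ang_min`, `ang_cpl`, `ang_one`).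
* `len m₁ ≤ len m + 1`: the product is `≤ K len (v-w) (1 + (len m)⁻¹) (1+nsq m)² Wp p z Wp (p+2) v ≤ K' len (v-w) Wp p v (1 + (len m)⁻¹) Wp (p-2) z`, `z = v - m` (`(1+nsq m)² ≤ 4 (1+nsq v)²(1+nsq z)²`).
* `∫ (1 + (len m)⁻¹) Wp (p-2) (v-m) dm ≤ K'`, uniformly in `v`: `(len m)⁻¹ Wp (p-2) (v-m) ≤ (len m)⁻¹ 1[len m ≤ 1] + Wp (p-2) (v-m)`, and `(len m)⁻¹ 1[len m ≤ 1] ≤ C kg (-1) m` with `kg (-1)` integrable (`kg_integrable`, H25/Kin/BInt, `d ≥ 2`, `-2 < -1`).
-/

set_option autoImplicit false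

open MeasureTheory Set Filter Topology Pool.Agent.H25.Kin Pool.Agent.H48.PL Pool.Agent.H48.PD
open Pool.Agent.H82.BK Pool.Agent.H82.CM Pool.Agent.H48.PR
open scoped ENNReal
open Pool.Agent.H87.QH

namespace Pool.Agent.H87.QM

variable {d : ℕ} {γ s C Ca : ℝ} {b : ℝ → ℝ}

private lemma R2_Kn (H : Hyp d γ s b C Ca) (ε : ℝ) : Measurable (Kn d γ (bt b ε)) := by
  have hbt : Measurable (bt b ε) := measurable_bt H.bm ε
  unfold Kn
  have h1 : Measurable fun c : ℝ => c ^ (-2 - γ) := measurable_id.pow_const _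
  have h2 : Measurable fun c : ℝ => bt b ε (2 * c ^ 2 - 1) := hbt.comp (by fun_prop)
  exact (measurable_const.mul h1).mul h2

private lemma R2_pair (m : Vec d) : Measurable fun σ : Vec d => ((m, σ) : Vec d × Vec d) :=
  measurable_const.prodMk measurable_id

private lemma R2_hh (m : Vec d) : Measurable fun σ : Vec d => hh σ m := by
  have h1 : Measurable fun q : Vec d × Vec d => hh q.2 q.1 := measurable_hh
  have h2 := h1.comp (R2_pair m)
  exact h2

private lemma R2_co (m : Vec d) : Measurable fun σ : Vec d => co m σ := by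
  have h1 : Measurable fun q : Vec d × Vec d => co q.1 q.2 := measurable_co
  have h2 := h1.comp (R2_pair m)
  exact h2

private lemma R2_mu (α : ℝ) : Measurable (mu α : Vec d → ℝ) := by
  have h5 : Measurable fun η : Vec d => min 1 (len η) :=
    measurable_const.min continuous_len.measurable
  exact h5.pow_const α

private lemma R2_m1 (H : Hyp d γ s b C Ca) (ε α : ℝ) (m : Vec d) :
    Measurable fun σ : Vec d => Kn d γ (bt b ε) (co m σ) * mu α (hh σ m) :=
  ((R2_Kn H ε).comp (R2_co m)).mul ((R2_mu α).comp (R2_hh m))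

private lemma R2_m2 (H : Hyp d γ s b C Ca) (ε α : ℝ) (m m₁ : Vec d) :
    Measurable fun σ : Vec d => Kn d γ (bt b ε) (co m σ) * mu α (cpl m m₁ (hh σ m)) := by
  have h1 : Measurable fun σ : Vec d => ((m, m₁, hh σ m) : Vec d × Vec d × Vec d) :=
    measurable_const.prodMk (measurable_const.prodMk (R2_hh m))
  have h2 : Measurable fun σ : Vec d => cpl m m₁ (hh σ m) := by
    have h3 := (measurable_cpl (d := d)).comp h1
    exact h3
  exact ((R2_Kn H ε).comp (R2_co m)).mul ((R2_mu α).comp h2)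

private lemma R2_inner (H : Hyp d γ s b C Ca) {ε α A₁ A A₂ P : ℝ} (hP : 0 ≤ P) (hA1 : 0 ≤ A₁)
    (hA : 0 ≤ A) (hA2 : 0 ≤ A₂) (m m₁ : Vec d)
    (h1 : ∫⁻ σ in {σ : Vec d | 0 < dot m σ}, ENNReal.ofReal
      (Kn d γ (bt b ε) (co m σ) * mu α (hh σ m)) ∂(surf d) ≤
      ENNReal.ofReal (A₁ * (1 + nsq m)))
    (h2 : ∫⁻ σ in {σ : Vec d | 0 < dot m σ}, ENNReal.ofReal
      (Kn d γ (bt b ε) (co m σ) * mu α (cpl m m₁ (hh σ m))) ∂(surf d) ≤
      ENNReal.ofReal (A * (1 + nsq m₁)))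
    (h3 : ∫⁻ σ in {σ : Vec d | 0 < dot m σ}, ENNReal.ofReal
      (Kn d γ (bt b ε) (co m σ) * (1 - co m σ ^ ((d : ℝ) + γ))) ∂(surf d) ≤ ENNReal.ofReal A₂) :
    ∫⁻ σ in {σ : Vec d | 0 < dot m σ}, ENNReal.ofReal (Kn d γ (bt b ε) (co m σ) *
        (P * (mu α (hh σ m) + mu α (cpl m m₁ (hh σ m)) +
          (1 - co m σ ^ ((d : ℝ) + γ))))) ∂(surf d) ≤
      ENNReal.ofReal (P * (A₁ * (1 + nsq m) + A * (1 + nsq m₁) + A₂)) := by
  have hn := sq_nonneg' m
  have hn1 := sq_nonneg' m₁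
  have h4 : ∀ σ : Vec d, ENNReal.ofReal (Kn d γ (bt b ε) (co m σ) *
        (P * (mu α (hh σ m) + mu α (cpl m m₁ (hh σ m)) + (1 - co m σ ^ ((d : ℝ) + γ))))) ≤
      ENNReal.ofReal P * (ENNReal.ofReal (Kn d γ (bt b ε) (co m σ) * mu α (hh σ m)) +
        (ENNReal.ofReal (Kn d γ (bt b ε) (co m σ) * mu α (cpl m m₁ (hh σ m))) +
        ENNReal.ofReal (Kn d γ (bt b ε) (co m σ) * (1 - co m σ ^ ((d : ℝ) + γ))))) := by
    intro σ
    have e1 : Kn d γ (bt b ε) (co m σ) *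
        (P * (mu α (hh σ m) + mu α (cpl m m₁ (hh σ m)) + (1 - co m σ ^ ((d : ℝ) + γ)))) =
        P * (Kn d γ (bt b ε) (co m σ) * mu α (hh σ m) +
          (Kn d γ (bt b ε) (co m σ) * mu α (cpl m m₁ (hh σ m)) +
          Kn d γ (bt b ε) (co m σ) * (1 - co m σ ^ ((d : ℝ) + γ)))) := by ring
    rw [e1, ENNReal.ofReal_mul hP]
    gcongr
    refine ENNReal.ofReal_add_le.trans ?_
    gcongr
    exact ENNReal.ofReal_add_le
  refine (lintegral_mono h4).trans ?_
  rw [lintegral_const_mul' _ _ ENNReal.ofReal_ne_top,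
    lintegral_add_left (R2_m1 H ε α m).ennreal_ofReal,
    lintegral_add_left (R2_m2 H ε α m m₁).ennreal_ofReal, ENNReal.ofReal_mul hP, add_assoc,
    ENNReal.ofReal_add (by positivity) (by positivity), ENNReal.ofReal_add (by positivity) hA2]
  gcongr

private lemma R2_nsq (v m : Vec d) : 1 + nsq m ≤ 2 * ((1 + nsq v) * (1 + nsq (v - m))) := by
  have h1 := sq_nonneg' v
  have h2 := sq_nonneg' (v - m)
  have h3 : nsq m ≤ 2 * nsq v + 2 * nsq (v - m) := by
    unfold nsq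
    rw [Finset.mul_sum, Finset.mul_sum, ← Finset.sum_add_distrib]
    refine Finset.sum_le_sum fun i _ => ?_
    rw [Pi.sub_apply]
    nlinarith [sq_nonneg (2 * v i - m i)]
  nlinarith [mul_nonneg h1 h2]

private lemma R2_W1 (p : ℕ) (v : Vec d) : Wp (p + 1) v * (1 + nsq v) = Wp p v := by
  have h := sq_nonneg' v
  have h1 : (1 + nsq v) ≠ 0 := by positivity
  unfold Wp
  rw [pow_succ, mul_inv, mul_assoc, inv_mul_cancel₀ h1, mul_one]

private lemma R2_Wm (p : ℕ) (v : Vec d) : Wp (p + 1) v ≤ Wp p v := by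
  have h := sq_nonneg' v
  have h1 := (Wp_pos (p + 1) v).le
  rw [← R2_W1 p v]
  nlinarith [mul_nonneg h1 h]

private lemma R2_wt {q : ℕ} (hq : d + 1 ≤ 2 * q) (z : Vec d) : Wp q z ≤ 2 ^ q * wt d z := by
  have h := sq_nonneg' z
  have h1 := one_le_w z
  have h2 : (1 + ‖z‖) ^ (d + 1) ≤ 2 ^ q * (1 + nsq z) ^ q := by
    calc (1 + ‖z‖) ^ (d + 1) ≤ (1 + ‖z‖) ^ (2 * q) := pow_le_pow_right₀ h1 hq
      _ = ((1 + ‖z‖) ^ 2) ^ q := pow_mul _ _ _
      _ ≤ (2 * (1 + nsq z)) ^ q := pow_le_pow_left₀ (by positivity) (norm_le_nsq z) q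
      _ = 2 ^ q * (1 + nsq z) ^ q := mul_pow _ _ _
  unfold Wp wt
  have h3 : 0 < (1 + nsq z) ^ q := by positivity
  have h4 : 0 < (1 + ‖z‖) ^ (d + 1) := by positivity
  rw [← div_eq_mul_inv, inv_eq_one_div, div_le_div_iff₀ h3 h4, one_mul]
  exact h2

private lemma R2_ng {γ x y : ℝ} (h0 : -1 ≤ γ) (hx : 0 < x) (hxy : x ≤ y) :
    x ^ γ - y ^ γ ≤ (y - x) * x ^ (γ - 1) := by
  have hy : 0 < y := lt_of_lt_of_le hx hxy
  have ht1 : 1 ≤ y / x := (one_le_div hx).2 hxy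
  have ht0 : 0 < y / x := lt_of_lt_of_le one_pos ht1
  have h3 : (y / x) ^ (-1 : ℝ) ≤ (y / x) ^ γ := Real.rpow_le_rpow_of_exponent_le ht1 h0
  rw [Real.rpow_neg_one] at h3
  have h4 : (y / x) ^ γ = y ^ γ / x ^ γ := Real.div_rpow hy.le hx.le γ
  have h5 : 0 < x ^ γ := Real.rpow_pos_of_pos hx γ
  have h6 : x ^ (γ - 1) = x ^ γ / x := by rw [Real.rpow_sub hx, Real.rpow_one]
  have h7 : 2 - y / x ≤ (y / x)⁻¹ := by
    set t := y / x
    have h9 : t⁻¹ - (2 - t) = (1 - t) ^ 2 / t := by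
      field_simp
      ring
    have h10 : 0 ≤ (1 - t) ^ 2 / t := by positivity
    linarith
  have h8 : x ^ γ - y ^ γ = x ^ γ * (1 - (y / x) ^ γ) := by
    rw [h4]
    field_simp
  rw [h8, h6]
  calc x ^ γ * (1 - (y / x) ^ γ) ≤ x ^ γ * (y / x - 1) :=
        mul_le_mul_of_nonneg_left (by linarith) h5.le
    _ = (y - x) * (x ^ γ / x) := by
        field_simp

private lemma R2_dif (h0 : -1 < γ) (hg : γ < 0) {m k : Vec d} (hm : m ≠ 0) :
    |len m ^ γ - len (m + k) ^ γ| ≤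
      len k * (len m ^ (γ - 1) + len (m + k) ^ (γ - 1)) := by
  have ha : 0 < len m := len_pos hm
  have hk := len_nonneg k
  have hp1 : 0 ≤ len m ^ (γ - 1) := Real.rpow_nonneg ha.le _
  have hp2 : 0 ≤ len (m + k) ^ (γ - 1) := Real.rpow_nonneg (len_nonneg _) _
  rcases eq_or_ne (m + k) 0 with h | h
  · have h1 : len (m + k) = 0 := by rw [h]; exact len_zero
    have h2 : len k = len m := by
      have h3 : k = -m := eq_neg_of_add_eq_zero_right h
      rw [h3, len_neg]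
    rw [h1, Real.zero_rpow hg.ne, Real.zero_rpow (by linarith), sub_zero, add_zero, h2,
      abs_of_nonneg (Real.rpow_nonneg ha.le _), Real.rpow_sub ha, Real.rpow_one,
      mul_div_cancel₀ _ ha.ne']
  · have hb : 0 < len (m + k) := len_pos h
    have h3 : len m - len (m + k) ≤ len k := by
      have h := len_le_add_sub m (m + k)
      have e : m - (m + k) = -k := by abel
      rw [e, len_neg] at h
      linarith
    have h4 : len (m + k) - len m ≤ len k := by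
      have h := len_add_le m k
      linarith
    rcases le_total (len m) (len (m + k)) with h5 | h5
    · have h6 : len (m + k) ^ γ ≤ len m ^ γ := Real.rpow_le_rpow_of_nonpos ha h5 hg.le
      rw [abs_of_nonneg (by linarith)]
      refine (R2_ng h0.le ha h5).trans ?_
      calc (len (m + k) - len m) * len m ^ (γ - 1) ≤ len k * len m ^ (γ - 1) :=
            mul_le_mul_of_nonneg_right h4 hp1
        _ ≤ _ := mul_le_mul_of_nonneg_left (by linarith) hk
    · have h6 : len m ^ γ ≤ len (m + k) ^ γ := Real.rpow_le_rpow_of_nonpos hb h5 hg.le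
      rw [abs_sub_comm, abs_of_nonneg (by linarith)]
      refine (R2_ng h0.le hb h5).trans ?_
      calc (len m - len (m + k)) * len (m + k) ^ (γ - 1) ≤ len k * len (m + k) ^ (γ - 1) :=
            mul_le_mul_of_nonneg_right h3 hp2
        _ ≤ _ := mul_le_mul_of_nonneg_left (by linarith) hk

/-- `|z|^(γ-1) W_q(u)` has a majorant with bounded integral -/
private lemma R2_kg (hg : γ < 0) {q : ℕ} (hq : d + 1 ≤ 2 * q) (z u : Vec d) :
    len z ^ (γ - 1) * Wp q u ≤ 2 ^ q * wt d u + 2 ^ (d + 5) * kg (γ - 1) z := by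
  have hl := len_nonneg z
  have hr : 0 ≤ len z ^ (γ - 1) := Real.rpow_nonneg hl _
  have h1 := R2_wt (d := d) hq u
  have hW := (Wp_pos q u).le
  have hW1 := Wp_le_one q u
  have hkg := kg_nonneg (γ - 1) z
  have hwt := wt_nonneg u
  rcases le_total (len z) 1 with h | h
  · have h2 : len z ^ (γ - 1) ≤ 2 ^ (d + 5) * kg (γ - 1) z := by
      unfold kg
      have h3 : (1 + ‖z‖) ^ (d + 5) ≤ 2 ^ (d + 5) :=
        pow_le_pow_left₀ (by positivity) (by linarith [norm_le_len z]) _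
      have h4 : 0 < (1 + ‖z‖) ^ (d + 5) := by positivity
      have h5 : 1 ≤ 2 ^ (d + 5) * ((1 + ‖z‖) ^ (d + 5))⁻¹ := by
        rw [← div_eq_mul_inv, one_le_div h4]
        exact h3
      have h6 : 1 ≤ 1 + nsq z := by linarith [sq_nonneg' z]
      calc len z ^ (γ - 1) = len z ^ (γ - 1) * 1 * 1 := by ring
        _ ≤ len z ^ (γ - 1) * (1 + nsq z) * (2 ^ (d + 5) * ((1 + ‖z‖) ^ (d + 5))⁻¹) := by
            gcongr
        _ = _ := by ring
    calc len z ^ (γ - 1) * Wp q u ≤ len z ^ (γ - 1) * 1 := by gcongr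
      _ ≤ 2 ^ q * wt d u + 2 ^ (d + 5) * kg (γ - 1) z := by
          have h7 : 0 ≤ 2 ^ q * wt d u := by positivity
          linarith
  · have h2 : len z ^ (γ - 1) ≤ 1 :=
      Real.rpow_le_one_of_one_le_of_nonpos h (by linarith)
    calc len z ^ (γ - 1) * Wp q u ≤ 1 * Wp q u := by gcongr
      _ ≤ 2 ^ q * wt d u := by rw [one_mul]; exact h1
      _ ≤ 2 ^ q * wt d u + 2 ^ (d + 5) * kg (γ - 1) z := by
          have h7 : 0 ≤ 2 ^ (d + 5) * kg (γ - 1) z := by positivity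
          linarith

theorem intR2 (H : Hyp d γ s b C Ca) (h0 : 0 ≤ γ + 2 * s) {α : ℝ} (h1 : 2 * s < α) (h2 : α ≤ 1) {p : ℕ}
    (hp : d + 12 ≤ p) : ∃ K : ℝ, 0 ≤ K ∧ ∀ v w : Vec d, len (v - w) ≤ 1 → ∀ ε : ℝ, 0 < ε →
    ∫⁻ m, ENNReal.ofReal (|len m ^ γ - len (m + (w - v)) ^ γ| * Wp p (v - m)) *
      ∫⁻ σ in {σ : Vec d | 0 < dot m σ}, ENNReal.ofReal (Kn d γ (bt b ε) (co m σ) *
        (Wp (p + 2) v * (mu α (hh σ m) + mu α (cpl m (m + (w - v)) (hh σ m)) +
          (1 - co m σ ^ ((d : ℝ) + γ))))) ∂(surf d) ≤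
      ENNReal.ofReal (K * len (v - w) * Wp p v) := by
  rcases le_or_gt 0 γ with hg0 | hg0
  · exact Pool.Agent.H87.QH.intR2 H hg0 h1 h2 hp
  have hgm : -1 < γ := by linarith
  obtain ⟨A₁, hA1, g1⟩ := ang_min H h1 h2
  obtain ⟨A, hA, g3⟩ := ang_cpl H h1 h2
  obtain ⟨A₂, hA2, g2⟩ := Pool.Agent.H71.VM.ang_one H h0
  obtain ⟨q, rfl⟩ : ∃ q, p = q + 2 := ⟨p - 2, by omega⟩
  have hα : 0 < α := by linarith [H.hs]
  have hI : 0 ≤ ∫ z : Vec d, wt d z := integral_nonneg wt_nonneg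
  have hI2 : 0 ≤ ∫ z : Vec d, kg (γ - 1) z := integral_nonneg (kg_nonneg (γ - 1))
  have hki : Integrable (kg (d := d) (γ - 1)) :=
    kg_integrable H.hd (by linarith) (by linarith)
  refine ⟨2 * (A₁ + 3 * A + A₂) * (2 * 2 ^ q * (∫ z : Vec d, wt d z) +
    2 ^ (d + 5) * (2 * ∫ z : Vec d, kg (γ - 1) z)), by positivity, fun v w hvw ε hε => ?_⟩
  have hk : len (w - v) = len (v - w) := by rw [← len_neg, neg_sub]
  have hk0 := len_nonneg (v - w)
  have key : ∀ m : Vec d,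
      ENNReal.ofReal (|len m ^ γ - len (m + (w - v)) ^ γ| * Wp (q + 2) (v - m)) *
      ∫⁻ σ in {σ : Vec d | 0 < dot m σ}, ENNReal.ofReal (Kn d γ (bt b ε) (co m σ) *
        (Wp (q + 2 + 2) v * (mu α (hh σ m) + mu α (cpl m (m + (w - v)) (hh σ m)) +
          (1 - co m σ ^ ((d : ℝ) + γ))))) ∂(surf d) ≤
      ENNReal.ofReal (2 * (A₁ + 3 * A + A₂) * len (v - w) * Wp (q + 2) v *
        (2 * 2 ^ q * wt d (v - m) +
          2 ^ (d + 5) * (kg (γ - 1) m + kg (γ - 1) (m + (w - v))))) := by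
    intro m
    rcases eq_or_ne m 0 with rfl | hm
    · have h3 : {σ : Vec d | 0 < dot (0 : Vec d) σ} = ∅ := by
        ext σ
        simp [dot]
      rw [h3, Measure.restrict_empty, lintegral_zero_measure, mul_zero]
      exact bot_le
    set m₁ : Vec d := m + (w - v) with hm1
    have hc : ∫⁻ σ in {σ : Vec d | 0 < dot m σ}, ENNReal.ofReal
        (Kn d γ (bt b ε) (co m σ) * mu α (cpl m m₁ (hh σ m))) ∂(surf d) ≤
        ENNReal.ofReal (A * (1 + nsq m₁)) := by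
      rcases eq_or_ne m₁ 0 with h | h
      · have h4 : ∀ σ : Vec d, ENNReal.ofReal
            (Kn d γ (bt b ε) (co m σ) * mu α (cpl m m₁ (hh σ m))) = 0 := by
          intro σ
          have h5 : cpl m m₁ (hh σ m) = 0 := by
            unfold cpl
            rw [h, show len (0 : Vec d) = 0 by simp [len, nsq], zero_div, zero_smul]
          have h6 : mu α (0 : Vec d) = 0 := by
            unfold mu
            rw [show len (0 : Vec d) = 0 by simp [len, nsq], min_eq_right zero_le_one,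
              Real.zero_rpow hα.ne']
          rw [h5, h6, mul_zero, ENNReal.ofReal_zero]
        simp_rw [h4]
        rw [lintegral_zero]
        exact bot_le
      · exact g3 ε hε m m₁ hm h
    have hW := (Wp_pos (q + 2 + 2) v).le
    have h3 := R2_inner (ε := ε) (α := α) H hW hA1 hA hA2 m m₁ (g1 ε hε m hm) hc (g2 ε hε m hm)
    refine (mul_le_mul_right h3 _).trans ?_
    have hWz := (Wp_pos (q + 2) (v - m)).le
    rw [← ENNReal.ofReal_mul (mul_nonneg (abs_nonneg _) hWz)]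
    refine ENNReal.ofReal_le_ofReal ?_
    have hm0 := sq_nonneg' m
    have hm10 := sq_nonneg' m₁
    have hv := sq_nonneg' v
    have hz := sq_nonneg' (v - m)
    have ha : 0 < len m := len_pos hm
    have hsq := len_sq m
    have hsq1 := len_sq m₁
    have hl1 : len m₁ ≤ len m + 1 := by
      have h := len_add_le m (w - v)
      rw [hk] at h
      linarith
    have hl0 := len_nonneg m₁
    have hp1 : 0 ≤ len m ^ (γ - 1) := Real.rpow_nonneg ha.le _
    have hp2 : 0 ≤ len m₁ ^ (γ - 1) := Real.rpow_nonneg hl0 _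
    have e1 : |len m ^ γ - len m₁ ^ γ| ≤
        len (v - w) * (len m ^ (γ - 1) + len m₁ ^ (γ - 1)) := by
      have h5 := R2_dif (k := w - v) hgm hg0 hm
      rw [hk] at h5
      exact h5
    have e2 : A₁ * (1 + nsq m) + A * (1 + nsq m₁) + A₂ ≤
        (A₁ + 3 * A + A₂) * (1 + nsq m) := by
      have h5 : nsq m₁ ≤ 2 * nsq m + 2 := by
        rw [← hsq, ← hsq1]
        nlinarith [sq_nonneg (len m - 1)]
      have h6 : A * (1 + nsq m₁) ≤ A * (3 * (1 + nsq m)) :=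
        mul_le_mul_of_nonneg_left (by linarith) hA
      have h7 : 0 ≤ A₂ * nsq m := by positivity
      linarith
    have e3 := R2_nsq v m
    have e4 : Wp (q + 2 + 2) v * (1 + nsq v) ≤ Wp (q + 2) v := by
      rw [show q + 2 + 2 = (q + 2 + 1) + 1 from rfl, R2_W1 (q + 2 + 1) v]
      exact R2_Wm (q + 2) v
    have e5 : Wp (q + 2) (v - m) * (1 + nsq (v - m)) ≤ Wp q (v - m) := by
      rw [show q + 2 = (q + 1) + 1 from rfl, R2_W1 (q + 1) (v - m)]
      exact R2_Wm q (v - m)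
    have e6 := R2_kg (d := d) (q := q) hg0 (by omega) m (v - m)
    have e7 := R2_kg (d := d) (q := q) hg0 (by omega) m₁ (v - m)
    have hWv := (Wp_pos (q + 2) v).le
    have hWq := (Wp_pos q (v - m)).le
    calc |len m ^ γ - len m₁ ^ γ| * Wp (q + 2) (v - m) * (Wp (q + 2 + 2) v *
          (A₁ * (1 + nsq m) + A * (1 + nsq m₁) + A₂)) ≤
          (len (v - w) * (len m ^ (γ - 1) + len m₁ ^ (γ - 1))) * Wp (q + 2) (v - m) *
            (Wp (q + 2 + 2) v * ((A₁ + 3 * A + A₂) * (2 * ((1 + nsq v) *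
              (1 + nsq (v - m)))))) := by
          gcongr
          exact e2.trans (mul_le_mul_of_nonneg_left e3 (by positivity))
      _ = 2 * (A₁ + 3 * A + A₂) * len (v - w) * (Wp (q + 2 + 2) v * (1 + nsq v)) *
            ((len m ^ (γ - 1) + len m₁ ^ (γ - 1)) *
              (Wp (q + 2) (v - m) * (1 + nsq (v - m)))) := by ring
      _ ≤ 2 * (A₁ + 3 * A + A₂) * len (v - w) * Wp (q + 2) v *
            ((len m ^ (γ - 1) + len m₁ ^ (γ - 1)) * Wp q (v - m)) := by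
          gcongr
      _ ≤ _ := by
          refine mul_le_mul_of_nonneg_left ?_ (by positivity)
          rw [add_mul]
          linarith
  refine (lintegral_mono key).trans ?_
  have hWv := (Wp_pos (q + 2) v).le
  have hc : 0 ≤ 2 * (A₁ + 3 * A + A₂) * len (v - w) * Wp (q + 2) v := by positivity
  have i1 : Integrable fun m : Vec d => 2 * 2 ^ q * wt d (v - m) :=
    (integrable_wt.comp_sub_left v).const_mul _
  have i2a : Integrable fun m : Vec d => kg (γ - 1) (m + (w - v)) :=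
    hki.comp_add_right (w - v)
  have i2 : Integrable fun m : Vec d =>
      2 ^ (d + 5) * (kg (γ - 1) m + kg (γ - 1) (m + (w - v))) := (hki.add i2a).const_mul _
  have i3 : Integrable fun m : Vec d => 2 * (A₁ + 3 * A + A₂) * len (v - w) * Wp (q + 2) v *
      (2 * 2 ^ q * wt d (v - m) +
        2 ^ (d + 5) * (kg (γ - 1) m + kg (γ - 1) (m + (w - v)))) := (i1.add i2).const_mul _
  rw [← ofReal_integral_eq_lintegral_ofReal i3 (Eventually.of_forall fun m => by
    have := wt_nonneg (v - m)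
    have := kg_nonneg (γ - 1) m
    have := kg_nonneg (γ - 1) (m + (w - v))
    positivity)]
  refine ENNReal.ofReal_le_ofReal (le_of_eq ?_)
  rw [integral_const_mul, integral_add i1 i2, integral_const_mul, integral_const_mul,
    integral_add hki i2a,
    integral_sub_left_eq_self (fun z : Vec d => wt d z) volume v,
    integral_add_right_eq_self (fun z : Vec d => kg (γ - 1) z) (w - v)]
  ring

end Pool.Agent.H87.QM
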