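import Pool.Agent.H87.QH.PtQ
import Pool.Agent.H87.QM.IntHQ
import Pool.Agent.H87.QM.IntR1
import Pool.Agent.H87.QM.IntR2
import Pool.Agent.H71.VM.PRIntR

/-!
# Module CutQ: the operator inequality at a touching pair

Model: PR/CutP (`cut_PI`, `op_PI`), whose private lemmas must be copied. Multiply `ptQ` with `z = v - m`, `h = hh σ m` (`dot (v - z) h = 0`: `dot m (hh σ m) = 0`), `h₁ = cpl m (m+(w-v)) (hh σ m)`, `c = co m σ` (`hc`: `cpl_dist`), `q = c^(d+γ)`, `a = len m^γ`, `a₁ = len (m+(w-v))^γ` by `Kn(c) ≥ 0`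
and integrate over `m, σ` (`0 < m·σ`), in `ℝ≥0∞`:
* left: `Gn(G)(v)` (`gain_eq`), `Ls(F)(w)` (`loss_cpl`), `Λ B`, `B = ∫⁻ ofReal(min(a,a₁) H) (ofReal(W v) BB(dir m))` (`BB_eq`);
* right: `Gn(F)(w)` (`gain_cpl`), `Ls(G)(v)`, `Λ ∫⁻ ofReal(min(a,a₁) H) GMq`, `δ ∫⁻ ofReal(len^γ G) GEg (RS v)` (`sw`, PR/Sw, with `U = Wp p`), `δ K₃(1+Γ) × intR`, `δ K₃ (1+Γ) × intR1`, `K₃ (1+Γ) × intR2`.
`δ ≤ Λ`: the two terms before are `≤ Λ (XH + XE)`, `intHQ` times `Λ`. `B ≠ ⊤` if `Λ > 0`: `Gv ≥ Λ W(v) > 0`, so `B ≤ ofReal (W v/G v) Ls(G)(v)` as in `cut_PI` (`min(a,a₁) ≤ a`); if `Λ = 0` then `Λ B = 0`. `cut_eq` (CM/RealG) for `G` at `v` and `F` at `w`. Then `boltz_tendsto` (`ε → 0+`).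
-/

set_option autoImplicit false

open MeasureTheory Set Filter Topology Pool.Agent.H25.Kin Pool.Agent.H48.PL Pool.Agent.H48.PD
open Pool.Agent.H82.BK Pool.Agent.H82.CM Pool.Agent.H48.PR
open scoped ENNReal
open Pool.Agent.H87.QH

namespace Pool.Agent.H87.QM

variable {d : ℕ} {γ s C Ca cb : ℝ} {b : ℝ → ℝ}

/-- the double integral over `m` and the half sphere -/
private noncomputable def cqI (Ψ : Vec d → Vec d → ℝ≥0∞) : ℝ≥0∞ :=
  ∫⁻ m, ∫⁻ σ in {σ : Vec d | 0 < dot m σ}, Ψ m σ ∂(surf d)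

private lemma cqI_meas {Ψ : Vec d → Vec d → ℝ≥0∞}
    (h : Measurable fun q : Vec d × Vec d => Ψ q.1 q.2) :
    Measurable fun m : Vec d => ∫⁻ σ in {σ : Vec d | 0 < dot m σ}, Ψ m σ ∂(surf d) := by
  have hS : MeasurableSet {q : Vec d × Vec d | 0 < dot q.1 q.2} := by
    have h1 : Continuous fun q : Vec d × Vec d => dot q.1 q.2 := by unfold dot; fun_prop
    exact (isOpen_lt continuous_const h1).measurableSet
  have h2 : Measurable fun q : Vec d × Vec d =>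
      ({q : Vec d × Vec d | 0 < dot q.1 q.2}.indicator (fun q => Ψ q.1 q.2)) q := h.indicator hS
  have h3 := h2.lintegral_prod_right' (ν := surf d)
  have e : (fun m : Vec d => ∫⁻ σ in {σ : Vec d | 0 < dot m σ}, Ψ m σ ∂(surf d)) =
      fun m : Vec d => ∫⁻ σ, ({q : Vec d × Vec d | 0 < dot q.1 q.2}.indicator
        (fun q => Ψ q.1 q.2)) (m, σ) ∂(surf d) := by
    funext m
    rw [← lintegral_indicator (measurableSet_half m)]
    rfl
  rw [e]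
  exact h3

private lemma cqI_meas' {Ψ : Vec d → Vec d → ℝ≥0∞}
    (h : Measurable fun q : Vec d × Vec d => Ψ q.1 q.2) (m : Vec d) :
    Measurable fun σ : Vec d => Ψ m σ :=
  Measurable.comp (g := fun q : Vec d × Vec d => Ψ q.1 q.2) h
    (measurable_const.prodMk measurable_id)

private lemma cqI_add {Ψ₁ Ψ₂ : Vec d → Vec d → ℝ≥0∞}
    (h : Measurable fun q : Vec d × Vec d => Ψ₁ q.1 q.2) :
    cqI (fun m σ => Ψ₁ m σ + Ψ₂ m σ) = cqI Ψ₁ + cqI Ψ₂ := by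
  unfold cqI
  rw [← lintegral_add_left (cqI_meas h)]
  refine lintegral_congr fun m => ?_
  exact lintegral_add_left (cqI_meas' h m) _

private lemma cqI_mono {Ψ₁ Ψ₂ : Vec d → Vec d → ℝ≥0∞}
    (h : ∀ m σ, nsq σ = 1 → 0 < dot m σ → Ψ₁ m σ ≤ Ψ₂ m σ) : cqI Ψ₁ ≤ cqI Ψ₂ := by
  unfold cqI
  refine lintegral_mono fun m => ?_
  refine lintegral_mono_ae ?_
  filter_upwards [ae_restrict_of_ae surf_ae, ae_restrict_mem (measurableSet_half m)] with σ hσ hm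
  exact h m σ hσ hm

/-- nonnegative factors depending on `m` only come out -/
private lemma cqI_pull {a : Vec d → ℝ} (ha : ∀ m, 0 ≤ a m) (B : Vec d → Vec d → ℝ) :
    cqI (fun m σ => ENNReal.ofReal (a m * B m σ)) =
      ∫⁻ m, ENNReal.ofReal (a m) *
        ∫⁻ σ in {σ : Vec d | 0 < dot m σ}, ENNReal.ofReal (B m σ) ∂(surf d) := by
  unfold cqI
  refine lintegral_congr fun m => ?_
  rw [← lintegral_const_mul' _ _ ENNReal.ofReal_ne_top]
  refine lintegral_congr fun σ => ?_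
  exact ENNReal.ofReal_mul (ha m)

private lemma cqI_const {c : ℝ≥0∞} (hc : c ≠ ⊤) (Ψ : Vec d → Vec d → ℝ≥0∞) :
    cqI (fun m σ => c * Ψ m σ) = c * cqI Ψ := by
  unfold cqI
  rw [← lintegral_const_mul' _ _ hc]
  refine lintegral_congr fun m => ?_
  rw [← lintegral_const_mul' _ _ hc]

/-- the last two together -/
private lemma cqI_cpull {c : ℝ≥0∞} (hc : c ≠ ⊤) {a : Vec d → ℝ} (ha : ∀ m, 0 ≤ a m)
    (B : Vec d → Vec d → ℝ) :
    cqI (fun m σ => c * ENNReal.ofReal (a m * B m σ)) =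
      c * ∫⁻ m, ENNReal.ofReal (a m) *
        ∫⁻ σ in {σ : Vec d | 0 < dot m σ}, ENNReal.ofReal (B m σ) ∂(surf d) := by
  rw [cqI_const hc, cqI_pull ha]

private lemma cqKn_nonneg {γ : ℝ} {b : ℝ → ℝ} {C β ε : ℝ} (hC : AngBound b C β) (hε : 0 < ε)
    {m σ : Vec d} (hσ : nsq σ = 1) (hm : 0 < dot m σ) : 0 ≤ Kn d γ (bt b ε) (co m σ) := by
  have h1 := co_pos hm
  have h2 := co_le_one (m := m) hσ
  unfold Kn
  refine mul_nonneg (mul_nonneg (by positivity) (Real.rpow_nonneg h1.le _)) (bt_nonneg hC hε ?_ ?_)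
  · nlinarith
  · nlinarith

private lemma cq_mK (γ : ℝ) {b : ℝ → ℝ} (hb : Measurable b) (ε : ℝ) :
    Measurable fun q : Vec d × Vec d => Kn d γ (bt b ε) (co q.1 q.2) := by
  have h1 := measurable_co (d := d)
  unfold Kn
  exact ((h1.pow_const _).const_mul _).mul
    ((measurable_bt hb ε).comp (((h1.pow_const 2).const_mul 2).sub_const 1))

private lemma cq_mq (E : ℝ) : Measurable fun q : Vec d × Vec d => co q.1 q.2 ^ E :=
  measurable_co.pow_const _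

private lemma cq_mL (γ : ℝ) (k : Vec d) : Measurable fun q : Vec d × Vec d => len (q.1 + k) ^ γ :=
  (continuous_len.measurable.comp (measurable_fst.add_const k)).pow_const γ

private lemma cq_mL0 (γ : ℝ) : Measurable fun q : Vec d × Vec d => len q.1 ^ γ :=
  (continuous_len.measurable.comp measurable_fst).pow_const γ

private lemma cq_mz (v : Vec d) : Measurable fun q : Vec d × Vec d => v - q.1 :=
  measurable_const.sub measurable_fst

private lemma cq_mh (v : Vec d) : Measurable fun q : Vec d × Vec d => v + hh q.2 q.1 :=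
  measurable_const.add measurable_hh

/-- the coupled displacement -/
private lemma cq_mc (k : Vec d) :
    Measurable fun q : Vec d × Vec d => cpl q.1 (q.1 + k) (hh q.2 q.1) := by
  have h1 : Measurable fun q : Vec d × Vec d => q.1 + k := measurable_fst.add_const k
  have h := (measurable_cpl (d := d)).comp (measurable_fst.prodMk (h1.prodMk measurable_hh))
  simp only [Function.comp_def] at h
  exact h

private lemma cq_mmu (α : ℝ) : Measurable fun x : Vec d => mu α x :=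
  (measurable_const.min continuous_len.measurable).pow_const α

/-- the loss type terms -/
private lemma cq_loss (hd : 2 ≤ d) (γ : ℝ) {b : ℝ → ℝ} (hb : Measurable b) (ε : ℝ)
    {a : Vec d → ℝ} (ha : ∀ m, 0 ≤ a m) {c : ℝ} (hc : 0 ≤ c) :
    cqI (fun m σ => ENNReal.ofReal (a m * c *
        (Kn d γ (bt b ε) (co m σ) * co m σ ^ ((d : ℝ) + γ)))) =
      ∫⁻ m, ENNReal.ofReal (a m) * (ENNReal.ofReal c * BB b ε (dir m)) := by
  rw [cqI_pull (a := fun m => a m * c) (fun m => mul_nonneg (ha m) hc)]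
  refine lintegral_congr_ae ?_
  filter_upwards [ae_ne (by omega : 1 ≤ d) (0 : Vec d)] with m hm
  rw [BB_eq hd γ hb ε hm.symm, ENNReal.ofReal_mul (ha m), mul_assoc]

/-- the pointwise inequality in `ℝ≥0∞` -/
private lemma cq_pt {x1 x2 x3 r1 r2 r3 r4 r5 r6 r7 : ℝ} (h1 : 0 ≤ x1) (h2 : 0 ≤ x2)
    (h3 : 0 ≤ x3) (h : x1 + (x2 + x3) ≤ r1 + (r2 + (r3 + (r4 + (r5 + (r6 + r7)))))) :
    ENNReal.ofReal x1 + (ENNReal.ofReal x2 + ENNReal.ofReal x3) ≤
      ENNReal.ofReal r1 + (ENNReal.ofReal r2 + (ENNReal.ofReal r3 +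
        (ENNReal.ofReal r4 + (ENNReal.ofReal r5 + (ENNReal.ofReal r6 + ENNReal.ofReal r7))))) := by
  rw [← ENNReal.ofReal_add h2 h3, ← ENNReal.ofReal_add h1 (by positivity)]
  refine (ENNReal.ofReal_le_ofReal h).trans ?_
  refine ENNReal.ofReal_add_le.trans (add_le_add_right ?_ _)
  refine ENNReal.ofReal_add_le.trans (add_le_add_right ?_ _)
  refine ENNReal.ofReal_add_le.trans (add_le_add_right ?_ _)
  refine ENNReal.ofReal_add_le.trans (add_le_add_right ?_ _)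
  refine ENNReal.ofReal_add_le.trans (add_le_add_right ?_ _)
  exact ENNReal.ofReal_add_le

/-- multiplication of the pointwise inequality by the kernel, `j = 1_RS` -/
private lemma cq_alg {a a₁ Gz Gh q Fz Fw mn L W Fh ci Wh X D W2 M1 M2 K δ Wz ab k : ℝ}
    (hk : 0 ≤ k)
    (h : a * (Gz * Gh) + (a₁ * (q * (Fz * Fw)) + min a a₁ * (mn * (q * (L * W)))) ≤
      a₁ * (Fz * Fh) + (a * (q * (Gz * D)) + (min a a₁ * (mn * (L * (ci * Wh))) +
        (X + (δ * K * (a * (Wz * (W2 * (M1 + (1 - q))))) +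
        (δ * K * (a₁ * (Wz * (W2 * M2))) +
        K * (ab * (Wz * (W2 * (M1 + M2 + (1 - q)))))))))) ) :
    a * Gz * (k * Gh) + (a₁ * Fz * Fw * (k * q) + min a a₁ * mn * (L * W) * (k * q)) ≤
      a₁ * Fz * (k * Fh) + (a * Gz * D * (k * q) + (L * (min a a₁ * mn * (k * (ci * Wh))) +
        (k * X + (δ * K * (a * Wz * (k * (W2 * (M1 + (1 - q))))) +
        (δ * K * (a₁ * Wz * (k * (W2 * M2))) +
        K * (ab * Wz * (k * (W2 * (M1 + M2 + (1 - q)))))))))) := by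
  have h1 := mul_le_mul_of_nonneg_left h hk
  calc _ = k * (a * (Gz * Gh) + (a₁ * (q * (Fz * Fw)) + min a a₁ * (mn * (q * (L * W))))) := by
        ring
    _ ≤ _ := h1
    _ = _ := by ring

/-- the constants -/
private lemma cq_fin {K₁ K₂ K₄ K₅ K₃ Γ δ Λ l W : ℝ} (hK₁ : 0 ≤ K₁) (hK₂ : 0 ≤ K₂) (hK₄ : 0 ≤ K₄)
    (hK₅ : 0 ≤ K₅) (hK₃ : 0 ≤ K₃) (hΓ : 0 ≤ Γ) (hδ : 0 ≤ δ) (hΛ : 0 ≤ Λ) (hl : 0 ≤ l)
    (hW : 0 ≤ W) :
    Λ * (K₁ * W) + (δ * (K₃ * (1 + Γ)) * (K₂ * W) + (δ * (K₃ * (1 + Γ)) * (K₄ * W) +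
      K₃ * (1 + Γ) * (K₅ * l * W))) ≤
      (K₁ + K₃ * (K₂ + K₄ + K₅)) * (Λ + (1 + Γ) * (δ + l)) * W := by
  have h0 : 0 ≤ 1 + Γ := by linarith
  have e : (K₁ + K₃ * (K₂ + K₄ + K₅)) * (Λ + (1 + Γ) * (δ + l)) * W =
      (Λ * (K₁ * W) + (δ * (K₃ * (1 + Γ)) * (K₂ * W) + (δ * (K₃ * (1 + Γ)) * (K₄ * W) +
      K₃ * (1 + Γ) * (K₅ * l * W)))) + (K₁ * ((1 + Γ) * (δ + l)) * W +
      K₃ * (K₂ + K₄ + K₅) * Λ * W + K₃ * (1 + Γ) * K₅ * δ * W +
      K₃ * (K₂ + K₄) * ((1 + Γ) * l) * W) := by ring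
  rw [e]
  refine le_add_of_nonneg_right ?_
  positivity

/-- cancellation of a finite term -/
private lemma cq_canc {g l₁ g' l' P B XH XE Y Y₁ Y₂ c5 c7 cδ kW y y₁ y₂ : ℝ≥0∞} (hfin : P * B ≠ ⊤)
    (hδ : cδ ≤ P)
    (main : g + (l₁ + P * B) ≤ g' + (l' + (P * XH + (cδ * XE + (c5 * Y + (c5 * Y₁ + c7 * Y₂))))))
    (hI : XH + XE ≤ B + kW) (hY : Y ≤ y) (hY₁ : Y₁ ≤ y₁) (hY₂ : Y₂ ≤ y₂) :
    g + l₁ ≤ g' + l' + (P * kW + (c5 * y + (c5 * y₁ + c7 * y₂))) := by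
  rw [← ENNReal.add_le_add_iff_right hfin]
  calc g + l₁ + P * B = g + (l₁ + P * B) := add_assoc _ _ _
    _ ≤ g' + (l' + (P * XH + (cδ * XE + (c5 * Y + (c5 * Y₁ + c7 * Y₂))))) := main
    _ ≤ g' + (l' + (P * XH + (P * XE + (c5 * y + (c5 * y₁ + c7 * y₂))))) := by gcongr
    _ = g' + l' + (P * (XH + XE) + (c5 * y + (c5 * y₁ + c7 * y₂))) := by ring
    _ ≤ g' + l' + (P * (B + kW) + (c5 * y + (c5 * y₁ + c7 * y₂))) := by gcongr
    _ = g' + l' + (P * kW + (c5 * y + (c5 * y₁ + c7 * y₂))) + P * B := by ring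

/-- the integrated inequality -/
private lemma cq_main (HL : HypL d γ s b C Ca cb) {α : ℝ} {p : ℕ} {Cl : ℕ → ℝ}
    {K₃ : ℝ} (hK₃ : 0 ≤ K₃)
    {Γ δ Λ : ℝ} {F G : Vec d → ℝ} {v w : Vec d} (h0 : 0 ≤ (d : ℝ) + γ) (ht : TQ Cl p α Γ δ Λ F G v w)
    (hP : ∀ z h h₁ : Vec d, dot (v - z) h = 0 → ∀ c q a a₁ : ℝ, 0 < c → c ≤ 1 →
      c * len (v + h - (w + h₁)) ≤ len (v - w) → 0 ≤ q → q ≤ 1 → 0 ≤ a → 0 ≤ a₁ →
      a * (G z * G (v + h)) + (a₁ * (q * (F z * F w)) +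
          min a a₁ * (min (F z) (G z) * (q * (Λ * Wp p v)))) ≤
        a₁ * (F z * F (w + h₁)) + (a * (q * (G z * G v)) +
          (min a a₁ * (min (F z) (G z) * (Λ * ((c ^ 2)⁻¹ * Wp p (v + h)))) +
          ((open Classical in if (z, v + h) ∈ RS v then 0 else δ * (a * (Wp p z * G (v + h)))) +
          (δ * (K₃ * (1 + Γ)) * (a * (Wp p z * (Wp (p + 2) v * (mu α h + (1 - q))))) +
          (δ * (K₃ * (1 + Γ)) * (a₁ * (Wp p z * (Wp (p + 2) v * mu α h₁))) +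
          K₃ * (1 + Γ) * (|a - a₁| * (Wp p z * (Wp (p + 2) v * (mu α h + mu α h₁ + (1 - q)))))))))))
    {ε : ℝ} (hε : 0 < ε) :
    Gn γ b ε G v + (Ls γ b ε F w + ENNReal.ofReal Λ *
      ∫⁻ m, ENNReal.ofReal (min (len m ^ γ) (len (m + (w - v)) ^ γ) *
        min (F (v - m)) (G (v - m))) * (ENNReal.ofReal (Wp p v) * BB b ε (dir m))) ≤
    Gn γ b ε F w + (Ls γ b ε G v + (ENNReal.ofReal Λ *
      (∫⁻ m, ENNReal.ofReal (min (len m ^ γ) (len (m + (w - v)) ^ γ) *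
        min (F (v - m)) (G (v - m))) * GMq γ b ε (Wp p) v m) +
      (ENNReal.ofReal δ * (∫⁻ m, ENNReal.ofReal (len m ^ γ * G (v - m)) *
        GEg γ b ε (Wp p) (RS v) v m) +
      (ENNReal.ofReal (δ * (K₃ * (1 + Γ))) *
        (∫⁻ m, ENNReal.ofReal (len m ^ γ * Wp p (v - m)) *
          ∫⁻ σ in {σ : Vec d | 0 < dot m σ}, ENNReal.ofReal (Kn d γ (bt b ε) (co m σ) *
          (Wp (p + 2) v * (mu α (hh σ m) + (1 - co m σ ^ ((d : ℝ) + γ))))) ∂(surf d)) +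
      (ENNReal.ofReal (δ * (K₃ * (1 + Γ))) *
        (∫⁻ m, ENNReal.ofReal (len (m + (w - v)) ^ γ * Wp p (v - m)) *
          ∫⁻ σ in {σ : Vec d | 0 < dot m σ}, ENNReal.ofReal (Kn d γ (bt b ε) (co m σ) *
          (Wp (p + 2) v * mu α (cpl m (m + (w - v)) (hh σ m)))) ∂(surf d)) +
      ENNReal.ofReal (K₃ * (1 + Γ)) *
        (∫⁻ m, ENNReal.ofReal (|len m ^ γ - len (m + (w - v)) ^ γ| * Wp p (v - m)) *
          ∫⁻ σ in {σ : Vec d | 0 < dot m σ}, ENNReal.ofReal (Kn d γ (bt b ε) (co m σ) *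
          (Wp (p + 2) v * (mu α (hh σ m) + mu α (cpl m (m + (w - v)) (hh σ m)) +
            (1 - co m σ ^ ((d : ℝ) + γ))))) ∂(surf d))))))) := by
  classical
  have hd := HL.H.hd
  have hbm := HL.H.bm
  have hbd := HL.H.bd
  have F0 := ht.hF.nonneg
  have G0 := ht.hG.nonneg
  have mF : Measurable F := ht.hF.nice.cont.measurable
  have mG : Measurable G := ht.hG.nice.cont.measurable
  have mW : Measurable (Wp p : Vec d → ℝ) := (Wp_cont p).measurable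
  have W0 : ∀ u : Vec d, 0 ≤ Wp p u := fun u => (Wp_pos p u).le
  have Wv := Wp_pos p v
  have hδ := ht.del
  have hΓ := ht.gam
  have hΛ : 0 ≤ Λ := hδ.trans ht.lam
  have hE0 : 0 ≤ (d : ℝ) + γ := h0
  have hl : ∀ m : Vec d, 0 ≤ len m ^ γ := fun m => Real.rpow_nonneg (len_nonneg m) γ
  have hl1 : ∀ m : Vec d, 0 ≤ len (m + (w - v)) ^ γ := fun m =>
    Real.rpow_nonneg (len_nonneg _) γ
  have hlm : ∀ m : Vec d, 0 ≤ min (len m ^ γ) (len (m + (w - v)) ^ γ) := fun m =>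
    le_min (hl m) (hl1 m)
  have hmn : ∀ m, 0 ≤ min (F (v - m)) (G (v - m)) := fun m => le_min (F0 _) (G0 _)
  have mmn : Measurable fun z : Vec d => min (F z) (G z) := mF.min mG
  have hKΓ : 0 ≤ K₃ * (1 + Γ) := by positivity
  have mK := cq_mK (d := d) γ hbm ε
  have mL0 := cq_mL0 (d := d) γ
  have mL1 := cq_mL γ (w - v)
  have mq := cq_mq (d := d) ((d : ℝ) + γ)
  have mz := cq_mz v
  have mh := cq_mh v
  have mc := cq_mc (w - v)
  have mmu := cq_mmu (d := d) α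
  -- the integrated terms
  have t1 : cqI (fun m σ => ENNReal.ofReal (len m ^ γ * G (v - m) *
      (Kn d γ (bt b ε) (co m σ) * G (v + hh σ m)))) = Gn γ b ε G v := by
    rw [gain_eq hd γ hbm hbd hε mG G0 v]
    exact cqI_pull (a := fun m => len m ^ γ * G (v - m)) (fun m => mul_nonneg (hl m) (G0 _))
      (fun m σ => Kn d γ (bt b ε) (co m σ) * G (v + hh σ m))
  have r1 : cqI (fun m σ => ENNReal.ofReal (len (m + (w - v)) ^ γ * F (v - m) *
      (Kn d γ (bt b ε) (co m σ) * F (w + cpl m (m + (w - v)) (hh σ m))))) = Gn γ b ε F w := by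
    rw [gain_cpl hd γ hbm hbd hε mF F0 v w]
    exact cqI_pull (a := fun m => len (m + (w - v)) ^ γ * F (v - m))
      (fun m => mul_nonneg (hl1 m) (F0 _))
      (fun m σ => Kn d γ (bt b ε) (co m σ) * F (w + cpl m (m + (w - v)) (hh σ m)))
  have t2 : cqI (fun m σ => ENNReal.ofReal (len (m + (w - v)) ^ γ * F (v - m) * F w *
      (Kn d γ (bt b ε) (co m σ) * co m σ ^ ((d : ℝ) + γ)))) = Ls γ b ε F w := by
    rw [loss_cpl hd γ hbm hbd hε mF F0 v w]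
    exact cq_loss hd γ hbm ε (a := fun m => len (m + (w - v)) ^ γ * F (v - m))
      (fun m => mul_nonneg (hl1 m) (F0 _)) (F0 w)
  have r2 : cqI (fun m σ => ENNReal.ofReal (len m ^ γ * G (v - m) * G v *
      (Kn d γ (bt b ε) (co m σ) * co m σ ^ ((d : ℝ) + γ)))) = Ls γ b ε G v := by
    rw [loss_eq hd γ hbm hbd hε mG G0 v]
    exact cq_loss hd γ hbm ε (a := fun m => len m ^ γ * G (v - m))
      (fun m => mul_nonneg (hl m) (G0 _)) (G0 v)
  have t3 : cqI (fun m σ => ENNReal.ofReal (min (len m ^ γ) (len (m + (w - v)) ^ γ) *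
      min (F (v - m)) (G (v - m)) *
      (Λ * Wp p v) * (Kn d γ (bt b ε) (co m σ) * co m σ ^ ((d : ℝ) + γ)))) =
      ENNReal.ofReal Λ * ∫⁻ m, ENNReal.ofReal (min (len m ^ γ) (len (m + (w - v)) ^ γ) *
        min (F (v - m)) (G (v - m))) * (ENNReal.ofReal (Wp p v) * BB b ε (dir m)) := by
    have h := cq_loss hd γ hbm ε (a := fun m => min (len m ^ γ) (len (m + (w - v)) ^ γ) *
      min (F (v - m)) (G (v - m)))
      (fun m => mul_nonneg (hlm m) (hmn m)) (c := Λ * Wp p v) (by positivity)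
    refine h.trans ?_
    rw [← lintegral_const_mul' _ _ ENNReal.ofReal_ne_top]
    refine lintegral_congr fun m => ?_
    rw [ENNReal.ofReal_mul hΛ]
    ring
  have r3 : cqI (fun m σ => ENNReal.ofReal Λ * ENNReal.ofReal
      (min (len m ^ γ) (len (m + (w - v)) ^ γ) * min (F (v - m)) (G (v - m)) *
      (Kn d γ (bt b ε) (co m σ) * ((co m σ ^ 2)⁻¹ * Wp p (v + hh σ m))))) =
      ENNReal.ofReal Λ * ∫⁻ m, ENNReal.ofReal (min (len m ^ γ) (len (m + (w - v)) ^ γ) *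
        min (F (v - m)) (G (v - m))) * GMq γ b ε (Wp p) v m :=
    cqI_cpull ENNReal.ofReal_ne_top (a := fun m => min (len m ^ γ) (len (m + (w - v)) ^ γ) *
      min (F (v - m)) (G (v - m))) (fun m => mul_nonneg (hlm m) (hmn m))
      (fun m σ => Kn d γ (bt b ε) (co m σ) * ((co m σ ^ 2)⁻¹ * Wp p (v + hh σ m)))
  have r4 : cqI (fun m σ => ENNReal.ofReal δ * (ENNReal.ofReal (len m ^ γ *
      Kn d γ (bt b ε) (co m σ)) * (if (v - m, v + hh σ m) ∈ RS v then 0 else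
        ENNReal.ofReal (Wp p (v - m) * G (v + hh σ m))))) = ENNReal.ofReal δ *
      ∫⁻ m, ENNReal.ofReal (len m ^ γ * G (v - m)) * GEg γ b ε (Wp p) (RS v) v m := by
    rw [cqI_const ENNReal.ofReal_ne_top]
    congr 1
    exact sw hd γ hbm hbd hε mW W0 mG G0 (measurableSet_RS v) v
  have r5 : cqI (fun m σ => ENNReal.ofReal (δ * (K₃ * (1 + Γ))) * ENNReal.ofReal (len m ^ γ *
      Wp p (v - m) * (Kn d γ (bt b ε) (co m σ) * (Wp (p + 2) v *
        (mu α (hh σ m) + (1 - co m σ ^ ((d : ℝ) + γ))))))) =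
      ENNReal.ofReal (δ * (K₃ * (1 + Γ))) * ∫⁻ m, ENNReal.ofReal (len m ^ γ * Wp p (v - m)) *
          ∫⁻ σ in {σ : Vec d | 0 < dot m σ}, ENNReal.ofReal (Kn d γ (bt b ε) (co m σ) *
          (Wp (p + 2) v * (mu α (hh σ m) + (1 - co m σ ^ ((d : ℝ) + γ))))) ∂(surf d) :=
    cqI_cpull ENNReal.ofReal_ne_top (a := fun m => len m ^ γ * Wp p (v - m))
      (fun m => mul_nonneg (hl m) (W0 _)) (fun m σ => Kn d γ (bt b ε) (co m σ) *
        (Wp (p + 2) v * (mu α (hh σ m) + (1 - co m σ ^ ((d : ℝ) + γ)))))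
  have r6 : cqI (fun m σ => ENNReal.ofReal (δ * (K₃ * (1 + Γ))) * ENNReal.ofReal
      (len (m + (w - v)) ^ γ *
      Wp p (v - m) * (Kn d γ (bt b ε) (co m σ) * (Wp (p + 2) v *
        mu α (cpl m (m + (w - v)) (hh σ m)))))) =
      ENNReal.ofReal (δ * (K₃ * (1 + Γ))) *
        ∫⁻ m, ENNReal.ofReal (len (m + (w - v)) ^ γ * Wp p (v - m)) *
          ∫⁻ σ in {σ : Vec d | 0 < dot m σ}, ENNReal.ofReal (Kn d γ (bt b ε) (co m σ) *
          (Wp (p + 2) v * mu α (cpl m (m + (w - v)) (hh σ m)))) ∂(surf d) :=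
    cqI_cpull ENNReal.ofReal_ne_top (a := fun m => len (m + (w - v)) ^ γ * Wp p (v - m))
      (fun m => mul_nonneg (hl1 m) (W0 _)) (fun m σ => Kn d γ (bt b ε) (co m σ) *
        (Wp (p + 2) v * mu α (cpl m (m + (w - v)) (hh σ m))))
  have r7 : cqI (fun m σ => ENNReal.ofReal (K₃ * (1 + Γ)) * ENNReal.ofReal
      (|len m ^ γ - len (m + (w - v)) ^ γ| *
      Wp p (v - m) * (Kn d γ (bt b ε) (co m σ) * (Wp (p + 2) v *
        (mu α (hh σ m) + mu α (cpl m (m + (w - v)) (hh σ m)) +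
            (1 - co m σ ^ ((d : ℝ) + γ))))))) =
      ENNReal.ofReal (K₃ * (1 + Γ)) *
        ∫⁻ m, ENNReal.ofReal (|len m ^ γ - len (m + (w - v)) ^ γ| * Wp p (v - m)) *
          ∫⁻ σ in {σ : Vec d | 0 < dot m σ}, ENNReal.ofReal (Kn d γ (bt b ε) (co m σ) *
          (Wp (p + 2) v * (mu α (hh σ m) + mu α (cpl m (m + (w - v)) (hh σ m)) +
            (1 - co m σ ^ ((d : ℝ) + γ))))) ∂(surf d) :=
    cqI_cpull ENNReal.ofReal_ne_top (a := fun m => |len m ^ γ - len (m + (w - v)) ^ γ| *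
        Wp p (v - m))
      (fun m => mul_nonneg (abs_nonneg _) (W0 _)) (fun m σ => Kn d γ (bt b ε) (co m σ) *
        (Wp (p + 2) v * (mu α (hh σ m) + mu α (cpl m (m + (w - v)) (hh σ m)) +
            (1 - co m σ ^ ((d : ℝ) + γ)))))
  -- measurability
  have n1 : Measurable fun q : Vec d × Vec d => ENNReal.ofReal (len q.1 ^ γ * G (v - q.1) *
      (Kn d γ (bt b ε) (co q.1 q.2) * G (v + hh q.2 q.1))) :=
    ((mL0.mul (mG.comp mz)).mul (mK.mul (mG.comp mh))).ennreal_ofReal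
  have n2 : Measurable fun q : Vec d × Vec d => ENNReal.ofReal (len (q.1 + (w - v)) ^ γ *
      F (v - q.1) * F w * (Kn d γ (bt b ε) (co q.1 q.2) * co q.1 q.2 ^ ((d : ℝ) + γ))) :=
    (((mL1.mul (mF.comp mz)).mul_const _).mul (mK.mul mq)).ennreal_ofReal
  have m1 : Measurable fun q : Vec d × Vec d => ENNReal.ofReal (len (q.1 + (w - v)) ^ γ *
      F (v - q.1) * (Kn d γ (bt b ε) (co q.1 q.2) *
        F (w + cpl q.1 (q.1 + (w - v)) (hh q.2 q.1)))) :=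
    ((mL1.mul (mF.comp mz)).mul (mK.mul (mF.comp (measurable_const.add mc)))).ennreal_ofReal
  have m2 : Measurable fun q : Vec d × Vec d => ENNReal.ofReal (len q.1 ^ γ *
      G (v - q.1) * G v * (Kn d γ (bt b ε) (co q.1 q.2) * co q.1 q.2 ^ ((d : ℝ) + γ))) :=
    (((mL0.mul (mG.comp mz)).mul_const _).mul (mK.mul mq)).ennreal_ofReal
  have m3 : Measurable fun q : Vec d × Vec d => ENNReal.ofReal Λ * ENNReal.ofReal
      (min (len q.1 ^ γ) (len (q.1 + (w - v)) ^ γ) * min (F (v - q.1)) (G (v - q.1)) *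
      (Kn d γ (bt b ε) (co q.1 q.2) * ((co q.1 q.2 ^ 2)⁻¹ * Wp p (v + hh q.2 q.1)))) :=
    ((((mL0.min mL1).mul (mmn.comp mz)).mul
      (mK.mul ((measurable_co.pow_const 2).inv.mul (mW.comp mh)))).ennreal_ofReal).const_mul _
  have m4 : Measurable fun q : Vec d × Vec d => ENNReal.ofReal δ * (ENNReal.ofReal (len q.1 ^ γ *
      Kn d γ (bt b ε) (co q.1 q.2)) * (if (v - q.1, v + hh q.2 q.1) ∈ RS v then 0 else
        ENNReal.ofReal (Wp p (v - q.1) * G (v + hh q.2 q.1)))) := by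
    refine Measurable.const_mul ?_ _
    refine Measurable.mul (mL0.mul mK).ennreal_ofReal ?_
    refine Measurable.ite ?_ measurable_const
      ((mW.comp mz).mul (mG.comp mh)).ennreal_ofReal
    exact (mz.prodMk mh) (measurableSet_RS v)
  have m5 : Measurable fun q : Vec d × Vec d => ENNReal.ofReal (δ * (K₃ * (1 + Γ))) *
      ENNReal.ofReal (len q.1 ^ γ * Wp p (v - q.1) * (Kn d γ (bt b ε) (co q.1 q.2) *
        (Wp (p + 2) v * (mu α (hh q.2 q.1) + (1 - co q.1 q.2 ^ ((d : ℝ) + γ)))))) :=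
    (((mL0.mul (mW.comp mz)).mul (mK.mul (((mmu.comp measurable_hh).add
      (measurable_const.sub mq)).const_mul _))).ennreal_ofReal).const_mul _
  have m6 : Measurable fun q : Vec d × Vec d => ENNReal.ofReal (δ * (K₃ * (1 + Γ))) *
      ENNReal.ofReal (len (q.1 + (w - v)) ^ γ * Wp p (v - q.1) *
        (Kn d γ (bt b ε) (co q.1 q.2) *
        (Wp (p + 2) v * mu α (cpl q.1 (q.1 + (w - v)) (hh q.2 q.1))))) :=
    (((mL1.mul (mW.comp mz)).mul (mK.mul ((mmu.comp mc).const_mul _))).ennreal_ofReal).const_mul _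
  rw [← t1, ← t2, ← t3, ← r1, ← r2, ← r3, ← r4, ← r5, ← r6, ← r7,
    ← cqI_add n2, ← cqI_add n1, ← cqI_add m6, ← cqI_add m5, ← cqI_add m4, ← cqI_add m3,
    ← cqI_add m2, ← cqI_add m1]
  refine cqI_mono fun m σ hσ hmσ => ?_
  have hk := cqKn_nonneg (γ := γ) hbd hε hσ hmσ
  have hc := co_pos hmσ
  have hc1 := co_le_one (m := m) hσ
  have hq0 : 0 ≤ co m σ ^ ((d : ℝ) + γ) := Real.rpow_nonneg hc.le _
  have hq1 : co m σ ^ ((d : ℝ) + γ) ≤ 1 := Real.rpow_le_one hc.le hc1 hE0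
  have hperp : dot (v - (v - m)) (hh σ m) = 0 := by
    rw [sub_sub_cancel, dot_comm]
    exact dot_hh hmσ
  have h3 := hP (v - m) (hh σ m) (cpl m (m + (w - v)) (hh σ m)) hperp (co m σ) _ (len m ^ γ)
    (len (m + (w - v)) ^ γ) hc hc1 (cpl_dist hσ hmσ) hq0 hq1 (hl m) (hl1 m)
  have h4 := cq_alg hk h3
  have hlk : 0 ≤ len m ^ γ * Kn d γ (bt b ε) (co m σ) := mul_nonneg (hl m) hk
  have e4 : ENNReal.ofReal δ * (ENNReal.ofReal (len m ^ γ * Kn d γ (bt b ε) (co m σ)) *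
      (if (v - m, v + hh σ m) ∈ RS v then 0 else
        ENNReal.ofReal (Wp p (v - m) * G (v + hh σ m)))) =
      ENNReal.ofReal (Kn d γ (bt b ε) (co m σ) *
        (if (v - m, v + hh σ m) ∈ RS v then 0 else
          δ * (len m ^ γ * (Wp p (v - m) * G (v + hh σ m))))) := by
    by_cases hmem : (v - m, v + hh σ m) ∈ RS v
    · rw [if_pos hmem, if_pos hmem, mul_zero, mul_zero, mul_zero, ENNReal.ofReal_zero]
    · rw [if_neg hmem, if_neg hmem, ← ENNReal.ofReal_mul hlk, ← ENNReal.ofReal_mul hδ]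
      congr 1
      ring
  rw [e4, ← ENNReal.ofReal_mul hΛ, ← ENNReal.ofReal_mul (mul_nonneg hδ hKΓ),
    ← ENNReal.ofReal_mul (mul_nonneg hδ hKΓ), ← ENNReal.ofReal_mul hKΓ]
  refine cq_pt ?_ ?_ ?_ h4
  · exact mul_nonneg (mul_nonneg (hl m) (G0 _)) (mul_nonneg hk (G0 _))
  · exact mul_nonneg (mul_nonneg (mul_nonneg (hl1 m) (F0 _)) (F0 _)) (mul_nonneg hk hq0)
  · exact mul_nonneg (mul_nonneg (mul_nonneg (hlm m) (hmn m)) (mul_nonneg hΛ Wv.le))
      (mul_nonneg hk hq0)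

theorem cut_Q (HL : HypL d γ s b C Ca cb) (h0 : 0 ≤ γ + 2 * s) (hs : 2 * s < 1) {α : ℝ} (h1 : 2 * s < α)
    (h2 : α ≤ 1) {p : ℕ} (hp : d + 12 ≤ p) (Cl : ℕ → ℝ) (R₁ : ℝ) {m₁ : ℝ} (hm : 0 < m₁) :
    ∃ ε₁ > 0, ∃ K : ℝ, 0 ≤ K ∧ ∀ (Γ δ Λ : ℝ) (F G : Vec d → ℝ) (v w : Vec d),
      TQ Cl p α Γ δ Λ F G v w →
      m₁ ≤ ∫ z in {z : Vec d | nsq z ≤ R₁ ^ 2}, G z → ∫ z, |G z - F z| ≤ ε₁ →
      ∀ ε : ℝ, 0 < ε → ε ≤ 1 / 64 →
      boltzCut γ b ε G v - boltzCut γ b ε F w ≤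
        K * (Λ + (1 + Γ) * (δ + len (v - w))) * Wp p v := by
  obtain ⟨ε₁, hε₁, K₁, hK₁, hI⟩ := intHQ HL h0 hs hp Cl R₁ hm
  obtain ⟨K₂, hK₂, hR⟩ := Pool.Agent.H71.VM.intR HL.H h0 h1 h2 (show d + 10 ≤ p by omega)
  obtain ⟨K₄, hK₄, hR1⟩ := intR1 HL.H h0 h1 h2 hp
  obtain ⟨K₅, hK₅, hR2⟩ := intR2 HL.H h0 h1 h2 hp
  obtain ⟨K₃, hK₃, hP⟩ := ptQ (d := d) Cl p
  refine ⟨ε₁, hε₁, K₁ + K₃ * (K₂ + K₄ + K₅), by positivity,
    fun Γ δ Λ F G v w ht hmG hdF ε hε hε1 => ?_⟩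
  have hd := HL.H.hd
  have hbm := HL.H.bm
  have hbd := HL.H.bd
  have F0 := ht.hF.nonneg
  have G0 := ht.hG.nonneg
  have mG : Measurable G := ht.hG.nice.cont.measurable
  have Wv := Wp_pos p v
  have hδ := ht.del
  have hΓ := ht.gam
  have hΛ : 0 ≤ Λ := hδ.trans ht.lam
  have hvw : 0 ≤ len (v - w) := len_nonneg _
  have hKΓ : 0 ≤ K₃ * (1 + Γ) := by positivity
  have hdg : 0 ≤ (d : ℝ) + γ := by
    have hd2 : (2 : ℝ) ≤ d := by exact_mod_cast HL.H.hd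
    linarith
  have main := cq_main HL hK₃ hdg ht (hP α Γ δ Λ F G v w ht) hε
  have hI' := (le_lintegral_add _ _).trans (hI F G ht.hF ht.hG v w ht.near hmG hdF ε hε hε1)
  have hR' := hR v ε hε
  have hR1' := hR1 v w ht.near ε hε
  have hR2' := hR2 v w ht.near ε hε
  obtain ⟨gG, lG, eG⟩ := cut_eq HL.H ht.hG.nice G0 hε v
  obtain ⟨gF, lF, eF⟩ := cut_eq HL.H ht.hF.nice F0 hε w
  -- finiteness
  have hfin : ENNReal.ofReal Λ * (∫⁻ m, ENNReal.ofReal (min (len m ^ γ)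
      (len (m + (w - v)) ^ γ) * min (F (v - m)) (G (v - m))) *
        (ENNReal.ofReal (Wp p v) * BB b ε (dir m))) ≠ ⊤ := by
    rcases hΛ.eq_or_lt with h | h
    · rw [← h, ENNReal.ofReal_zero, zero_mul]
      exact ENNReal.zero_ne_top
    · have hGv : 0 < G v := by
        have h3 := ht.tou
        have h4 := F0 w
        have h5 := mul_pos h Wv
        linarith
      have hBle : (∫⁻ m, ENNReal.ofReal (min (len m ^ γ)
          (len (m + (w - v)) ^ γ) * min (F (v - m)) (G (v - m))) *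
          (ENNReal.ofReal (Wp p v) * BB b ε (dir m))) ≤
          ENNReal.ofReal (Wp p v / G v) * Ls γ b ε G v := by
        rw [loss_eq hd γ hbm hbd hε mG G0 v, ← lintegral_const_mul' _ _ ENNReal.ofReal_ne_top]
        refine lintegral_mono fun m => ?_
        have e5 : ENNReal.ofReal (Wp p v) =
            ENNReal.ofReal (Wp p v / G v) * ENNReal.ofReal (G v) := by
          rw [← ENNReal.ofReal_mul (by positivity), div_mul_cancel₀ _ hGv.ne']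
        have hl : 0 ≤ len m ^ γ := Real.rpow_nonneg (len_nonneg m) γ
        have h6 : ENNReal.ofReal (min (len m ^ γ)
            (len (m + (w - v)) ^ γ) * min (F (v - m)) (G (v - m))) ≤
            ENNReal.ofReal (len m ^ γ * G (v - m)) :=
          ENNReal.ofReal_le_ofReal (mul_le_mul (min_le_left _ _) (min_le_right _ _)
            (le_min (F0 _) (G0 _)) hl)
        calc ENNReal.ofReal (min (len m ^ γ)
              (len (m + (w - v)) ^ γ) * min (F (v - m)) (G (v - m))) *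
              (ENNReal.ofReal (Wp p v) * BB b ε (dir m))
            ≤ ENNReal.ofReal (len m ^ γ * G (v - m)) *
              (ENNReal.ofReal (Wp p v) * BB b ε (dir m)) := mul_le_mul_left h6 _
          _ = _ := by rw [e5]; ring
      refine ENNReal.mul_ne_top ENNReal.ofReal_ne_top (ne_top_of_le_ne_top ?_ hBle)
      exact ENNReal.mul_ne_top ENNReal.ofReal_ne_top lG
  have key := cq_canc hfin (ENNReal.ofReal_le_ofReal ht.lam) main hI' hR' hR1' hR2'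
  have hc5 : 0 ≤ δ * (K₃ * (1 + Γ)) := mul_nonneg hδ hKΓ
  have hW1 : 0 ≤ K₁ * Wp p v := by positivity
  have hW2 : 0 ≤ K₂ * Wp p v := by positivity
  have hW4 : 0 ≤ K₄ * Wp p v := by positivity
  have hW5 : 0 ≤ K₅ * len (v - w) * Wp p v := by positivity
  rw [← ENNReal.ofReal_mul hΛ, ← ENNReal.ofReal_mul hc5, ← ENNReal.ofReal_mul hc5,
    ← ENNReal.ofReal_mul hKΓ, ← ENNReal.ofReal_add (by positivity) (by positivity),
    ← ENNReal.ofReal_add (by positivity) (by positivity),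
    ← ENNReal.ofReal_add (by positivity) (by positivity)] at key
  have hS0 : 0 ≤ Λ * (K₁ * Wp p v) + (δ * (K₃ * (1 + Γ)) * (K₂ * Wp p v) +
      (δ * (K₃ * (1 + Γ)) * (K₄ * Wp p v) + K₃ * (1 + Γ) * (K₅ * len (v - w) * Wp p v))) := by
    positivity
  have key2 := ENNReal.toReal_mono (ENNReal.add_ne_top.2 ⟨ENNReal.add_ne_top.2 ⟨gF, lG⟩,
    ENNReal.ofReal_ne_top⟩) key
  rw [ENNReal.toReal_add gG lF, ENNReal.toReal_add (ENNReal.add_ne_top.2 ⟨gF, lG⟩)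
    ENNReal.ofReal_ne_top, ENNReal.toReal_add gF lG, ENNReal.toReal_ofReal hS0] at key2
  rw [eG, eF]
  have h7 := cq_fin hK₁ hK₂ hK₄ hK₅ hK₃ hΓ hδ hΛ hvw Wv.le
  linarith

theorem op_Q (HL : HypL d γ s b C Ca cb) (h0 : 0 ≤ γ + 2 * s) (hs : 2 * s < 1) {α : ℝ} (h1 : 2 * s < α)
    (h2 : α ≤ 1) {p : ℕ} (hp : d + 12 ≤ p) (Cl : ℕ → ℝ) (R₁ : ℝ) {m₁ : ℝ} (hm : 0 < m₁) :
    ∃ ε₁ > 0, ∃ K : ℝ, 0 ≤ K ∧ ∀ (Γ δ Λ : ℝ) (F G : Vec d → ℝ) (v w : Vec d),
      TQ Cl p α Γ δ Λ F G v w →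
      m₁ ≤ ∫ z in {z : Vec d | nsq z ≤ R₁ ^ 2}, G z → ∫ z, |G z - F z| ≤ ε₁ →
      boltzQ γ b G v - boltzQ γ b F w ≤
        K * (Λ + (1 + Γ) * (δ + len (v - w))) * Wp p v := by
  obtain ⟨ε₁, hε₁, K, hK, h⟩ := cut_Q HL h0 hs h1 h2 hp Cl R₁ hm
  refine ⟨ε₁, hε₁, K, hK, fun Γ δ Λ F G v w ht hmG hdF => ?_⟩
  refine le_of_tendsto ((boltz_tendsto HL.H ht.hG.nice v).sub (boltz_tendsto HL.H ht.hF.nice w)) ?_
  filter_upwards [Ioo_mem_nhdsGT (show (0 : ℝ) < 1 / 64 by norm_num)] with ε hε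
  exact h Γ δ Λ F G v w ht hmG hdF ε hε.1 hε.2.le

end Pool.Agent.H87.QM
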